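import Pool.Agent.N678.EM.Key

set_option autoImplicit false
set_option linter.unusedSectionVars false
open scoped InnerProductSpace ENNReal
open Pool.Agent.Helper526.Sch Pool.Agent.N678.CL Filter Topology

namespace Pool.Agent.N678.EM

universe u v w

variable {H : Type u} [NormedAddCommGroup H] [InnerProductSpace ℂ H] [CompleteSpace H]
  {ι : Type v} (b : HilbertBasis ι ℂ H) {p : ℝ}

theorem norm_apply_le (hp0 : 0 < p) {Y : H →L[ℂ] H} (hY : IsSchatten b p Y) (u : H) :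
    ‖Y u‖ ≤ f b p Y ^ (1 / p) * ‖u‖ := by
  obtain ⟨κ, v, lam, hv⟩ := exists_eigenbasis' (Cpt.of_compact hY.1).1
  have hlam : ∀ k, 0 ≤ lam k := fun k => by rw [eigen_nonneg v hv k]; positivity
  have htr := trAbsPow_eq b v hv hp0
  have hle : ∀ k, lam k ≤ f b p Y ^ (2 / p) := by
    intro k
    have h1 : ENNReal.ofReal (lam k ^ (p / 2)) ≤ trAbsPow b p Y := by
      rw [htr]; exact ENNReal.le_tsum k
    have h2 : lam k ^ (p / 2) ≤ f b p Y := by
      have := ENNReal.toReal_mono hY.2.ne h1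
      rwa [ENNReal.toReal_ofReal (Real.rpow_nonneg (hlam k) _)] at this
    have h3 := Real.rpow_le_rpow (Real.rpow_nonneg (hlam k) _) h2
      (by positivity : (0 : ℝ) ≤ 2 / p)
    rw [← Real.rpow_mul (hlam k)] at h3
    have : p / 2 * (2 / p) = 1 := by field_simp
    rwa [this, Real.rpow_one] at h3
  have h1 := hasSum_eigen v (isSelfAdjoint_star_mul Y) hv u
  rw [re_inner_star_mul] at h1
  have h2 := (hasSum_sq v u).mul_right (f b p Y ^ (2 / p))
  have h3 : ‖Y u‖ ^ 2 ≤ ‖u‖ ^ 2 * f b p Y ^ (2 / p) :=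
    hasSum_le (fun k => mul_le_mul_of_nonneg_left (hle k) (by positivity)) h1 h2
  have hf := f_nonneg (p := p) b Y
  have h4 : ‖u‖ ^ 2 * f b p Y ^ (2 / p) = (f b p Y ^ (1 / p) * ‖u‖) ^ 2 := by
    rw [mul_pow, ← Real.rpow_natCast (f b p Y ^ (1 / p)), ← Real.rpow_mul hf]
    rw [mul_comm]
    congr 2
    push_cast
    ring
  rw [h4] at h3
  exact le_of_sq_le_sq h3 (mul_nonneg (Real.rpow_nonneg hf _) (norm_nonneg _))

theorem opnorm_le (hp0 : 0 < p) {Y : H →L[ℂ] H} (hY : IsSchatten b p Y) :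
    ‖Y‖ ≤ f b p Y ^ (1 / p) :=
  Y.opNorm_le_bound (Real.rpow_nonneg (f_nonneg b _) _) (norm_apply_le b hp0 hY)

/-- the Hilbertian seminorm -/
noncomputable def QQ {m : ℕ} (e g : Fin m → H) (Y : H →L[ℂ] H) : ℝ :=
  ∑ i, (‖Y (e i)‖ ^ 2 + ‖(star Y) (g i)‖ ^ 2)

theorem QQ_par {m : ℕ} (e g : Fin m → H) (Y Z : H →L[ℂ] H) :
    QQ e g (Y + Z) + QQ e g (Y - Z) = 2 * QQ e g Y + 2 * QQ e g Z := by
  unfold QQ
  rw [Finset.mul_sum, Finset.mul_sum, ← Finset.sum_add_distrib, ← Finset.sum_add_distrib]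
  refine Finset.sum_congr rfl fun i _ => ?_
  have h1 := parallelogram_law_with_norm ℂ (Y (e i)) (Z (e i))
  have h2 := parallelogram_law_with_norm ℂ ((star Y) (g i)) ((star Z) (g i))
  have e1 : (Y + Z) (e i) = Y (e i) + Z (e i) := rfl
  have e2 : (Y - Z) (e i) = Y (e i) - Z (e i) := rfl
  have e3 : (star (Y + Z)) (g i) = (star Y) (g i) + (star Z) (g i) := by rw [star_add]; rfl
  have e4 : (star (Y - Z)) (g i) = (star Y) (g i) - (star Z) (g i) := by rw [star_sub]; rfl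
  rw [e1, e2, e3, e4]
  nlinarith

theorem QQ_smul {m : ℕ} (e g : Fin m → H) (t : ℝ) (Y : H →L[ℂ] H) :
    QQ e g ((t : ℂ) • Y) = t ^ 2 * QQ e g Y := by
  unfold QQ
  rw [Finset.mul_sum]
  refine Finset.sum_congr rfl fun i _ => ?_
  have e1 : ((t : ℂ) • Y) (e i) = (t : ℂ) • Y (e i) := rfl
  have e3 : (star ((t : ℂ) • Y)) (g i) = (t : ℂ) • (star Y) (g i) := by
    rw [star_smul]
    change (star (t : ℂ)) • (star Y) (g i) = _
    rw [Complex.star_def, Complex.conj_ofReal]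
  rw [e1, e3, norm_smul, norm_smul, Complex.norm_real, mul_pow, mul_pow, Real.norm_eq_abs, sq_abs]
  ring

theorem QQ_le {m : ℕ} (e g : Fin m → H) (he : ∀ i, ‖e i‖ = 1) (hg : ∀ i, ‖g i‖ = 1)
    (Y : H →L[ℂ] H) : QQ e g Y ≤ 2 * m * ‖Y‖ ^ 2 := by
  unfold QQ
  have : ∀ i ∈ (Finset.univ : Finset (Fin m)),
      ‖Y (e i)‖ ^ 2 + ‖(star Y) (g i)‖ ^ 2 ≤ 2 * ‖Y‖ ^ 2 := by
    intro i _
    have h1 := Y.le_opNorm (e i)
    have h2 := (star Y).le_opNorm (g i)
    rw [he, mul_one] at h1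
    rw [hg, mul_one, norm_star] at h2
    have := norm_nonneg (Y (e i))
    have := norm_nonneg ((star Y) (g i))
    nlinarith [norm_nonneg Y]
  refine (Finset.sum_le_sum this).trans (le_of_eq ?_)
  rw [Finset.sum_const, Finset.card_univ, Fintype.card_fin, nsmul_eq_mul]
  ring

theorem QQ_small {m : ℕ} {e g : Fin m → H} {Y : H →L[ℂ] H} {M : ℝ} (hM : 0 ≤ M)
    (h : QQ e g Y ≤ M ^ 2) (i : Fin m) : ‖Y (e i)‖ ≤ M ∧ ‖(star Y) (g i)‖ ≤ M := by
  have h1 : ‖Y (e i)‖ ^ 2 + ‖(star Y) (g i)‖ ^ 2 ≤ QQ e g Y :=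
    Finset.single_le_sum (f := fun i => ‖Y (e i)‖ ^ 2 + ‖(star Y) (g i)‖ ^ 2)
      (fun _ _ => by positivity) (Finset.mem_univ i)
  constructor
  · exact le_of_sq_le_sq (by nlinarith [sq_nonneg ‖(star Y) (g i)‖]) hM
  · exact le_of_sq_le_sq (by nlinarith [sq_nonneg ‖Y (e i)‖]) hM

/-- signs -/
theorem signs {V : Type*} [AddCommGroup V] [Module ℂ V] (Q : V → ℝ)
    (hQ : ∀ x y, Q (x + y) + Q (x - y) = 2 * Q x + 2 * Q y) (h0 : Q 0 = 0) (x : ℕ → V) (n : ℕ) :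
    (∃ ε : ℕ → ℝ, (∀ k, ε k = 1 ∨ ε k = -1) ∧
      Q (∑ k ∈ Finset.range n, (ε k : ℂ) • x k) ≤ ∑ k ∈ Finset.range n, Q (x k)) ∧
    (∃ ε : ℕ → ℝ, (∀ k, ε k = 1 ∨ ε k = -1) ∧
      ∑ k ∈ Finset.range n, Q (x k) ≤ Q (∑ k ∈ Finset.range n, (ε k : ℂ) • x k)) := by
  classical
  induction n with
  | zero => exact ⟨⟨fun _ => 1, fun _ => Or.inl rfl, by simp [h0]⟩,
      ⟨fun _ => 1, fun _ => Or.inl rfl, by simp [h0]⟩⟩
  | succ n ih =>
    have upd : ∀ (ε : ℕ → ℝ) (c : ℝ), ∑ k ∈ Finset.range (n + 1),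
        ((Function.update ε n c k : ℝ) : ℂ) • x k =
        ∑ k ∈ Finset.range n, (ε k : ℂ) • x k + (c : ℂ) • x n := by
      intro ε c
      rw [Finset.sum_range_succ, Function.update_self]
      congr 1
      refine Finset.sum_congr rfl fun k hk => ?_
      rw [Function.update_of_ne (Finset.mem_range.1 hk).ne]
    have hup : ∀ (ε : ℕ → ℝ) (c : ℝ), (∀ k, ε k = 1 ∨ ε k = -1) → (c = 1 ∨ c = -1) →
        ∀ k, Function.update ε n c k = 1 ∨ Function.update ε n c k = -1 := by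
      intro ε c h1 h2 k
      by_cases hk : k = n
      · subst hk
        rwa [Function.update_self]
      · rw [Function.update_of_ne hk]
        exact h1 k
    obtain ⟨⟨ε, hε, h1⟩, ⟨δ, hδ, h2⟩⟩ := ih
    constructor
    · have h3 := hQ (∑ k ∈ Finset.range n, (ε k : ℂ) • x k) (x n)
      rcases le_total (Q (∑ k ∈ Finset.range n, (ε k : ℂ) • x k + x n))
        (Q (∑ k ∈ Finset.range n, (ε k : ℂ) • x k - x n)) with h | h
      · refine ⟨Function.update ε n 1, hup ε 1 hε (Or.inl rfl), ?_⟩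
        rw [upd, Finset.sum_range_succ]
        simp only [Complex.ofReal_one, one_smul]
        linarith
      · refine ⟨Function.update ε n (-1), hup ε (-1) hε (Or.inr rfl), ?_⟩
        rw [upd, Finset.sum_range_succ]
        simp only [Complex.ofReal_neg, Complex.ofReal_one, neg_smul, one_smul, ← sub_eq_add_neg]
        linarith
    · have h3 := hQ (∑ k ∈ Finset.range n, (δ k : ℂ) • x k) (x n)
      rcases le_total (Q (∑ k ∈ Finset.range n, (δ k : ℂ) • x k + x n))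
        (Q (∑ k ∈ Finset.range n, (δ k : ℂ) • x k - x n)) with h | h
      · refine ⟨Function.update δ n (-1), hup δ (-1) hδ (Or.inr rfl), ?_⟩
        rw [upd, Finset.sum_range_succ]
        simp only [Complex.ofReal_neg, Complex.ofReal_one, neg_smul, one_smul, ← sub_eq_add_neg]
        linarith
      · refine ⟨Function.update δ n 1, hup δ 1 hδ (Or.inl rfl), ?_⟩
        rw [upd, Finset.sum_range_succ]
        simp only [Complex.ofReal_one, one_smul]
        linarith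

theorem growth {s A B : ℝ} (hA : 0 < A) (h : ∀ n : ℕ, 0 < n → A * (n : ℝ) ^ s ≤ B) : s ≤ 0 := by
  by_contra hs
  push Not at hs
  have h1 : Tendsto (fun n : ℕ => A * (n : ℝ) ^ s) atTop atTop :=
    ((tendsto_rpow_atTop hs).comp tendsto_natCast_atTop_atTop).const_mul_atTop hA
  obtain ⟨n, hn, hn0⟩ := ((h1.eventually_gt_atTop B).and (eventually_gt_atTop 0)).exists
  exact absurd (h n hn0) (not_le.2 hn)

/-- a norm on the finitely supported sequences which behaves like the norm of `ℓ_q`, `r = 1/q` -/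
structure Like (r : ℝ) (N : (ℕ →₀ ℂ) → ℝ) : Prop where
  nonneg : ∀ a, 0 ≤ N a
  pos : ∀ a, a ≠ 0 → 0 < N a
  hom : ∀ (t : ℝ) a, N ((t : ℂ) • a) = |t| * N a
  one : N (Finsupp.single 0 1) = 1
  ones : ∀ k : ℕ, N (Finsupp.single (k + 1) 1) = 1
  split : ∀ a, a 0 = 0 → N a = 1 → N (Finsupp.single 0 1 + a) = 2 ^ r
  signs : ∀ (n : ℕ) (ε : ℕ → ℝ), 0 < n → (∀ k, ε k = 1 ∨ ε k = -1) →
    N (∑ k ∈ Finset.range n, (ε k : ℂ) • Finsupp.single (k + 1) 1) = (n : ℝ) ^ r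

/-- the seminorm is equivalent only if `q = 2` -/
theorem hilb {r : ℝ} {N : (ℕ →₀ ℂ) → ℝ} (hN : Like r N) (L : (ℕ →₀ ℂ) →ₗ[ℂ] (H →L[ℂ] H))
    (hL : ∀ a, ‖L a‖ ≤ N a) {m : ℕ} {e g : Fin m → H} (he : ∀ i, ‖e i‖ = 1)
    (hg : ∀ i, ‖g i‖ = 1) {M : ℝ} (hM : 0 < M)
    (h : ∀ a, a 0 = 0 → N a = 1 → M ^ 2 < QQ e g (L a)) : r = 1 / 2 := by
  have h0 : QQ e g (0 : H →L[ℂ] H) = 0 := by simp [QQ]
  have hlow : ∀ a : ℕ →₀ ℂ, a 0 = 0 → M ^ 2 * N a ^ 2 ≤ QQ e g (L a) := by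
    intro a ha0
    by_cases hz : a = 0
    · subst hz
      have : N 0 = 0 := by
        have := hN.hom 0 0
        simpa using this
      rw [this]
      simp [h0]
    have hp := hN.pos a hz
    have h1 := h (((N a)⁻¹ : ℝ) • a) (by simp [ha0]) (by
      have := hN.hom (N a)⁻¹ a
      rw [Complex.coe_smul] at this
      rw [this, abs_of_pos (inv_pos.2 hp), inv_mul_cancel₀ hp.ne'])
    have h2 : L (((N a)⁻¹ : ℝ) • a) = (((N a)⁻¹ : ℝ) : ℂ) • L a := by
      rw [← Complex.coe_smul, map_smul]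
    rw [h2, QQ_smul, inv_pow] at h1
    have h3 : 0 < N a ^ 2 := by positivity
    have h4 : M ^ 2 * N a ^ 2 < ((N a ^ 2)⁻¹ * QQ e g (L a)) * N a ^ 2 :=
      mul_lt_mul_of_pos_right h1 h3
    have h5 : ((N a ^ 2)⁻¹ * QQ e g (L a)) * N a ^ 2 = QQ e g (L a) := by
      field_simp
    linarith
  have hup : ∀ a : ℕ →₀ ℂ, QQ e g (L a) ≤ 2 * m * N a ^ 2 := by
    intro a
    refine (QQ_le e g he hg _).trans ?_
    have := hL a
    have h2 : ‖L a‖ ^ 2 ≤ N a ^ 2 := by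
      have := norm_nonneg (L a)
      gcongr
    exact mul_le_mul_of_nonneg_left h2 (by positivity)
  have hone : ∀ k : ℕ, N (Finsupp.single (k + 1) 1) = 1 := hN.ones
  have hsg := fun n => signs (fun Y : H →L[ℂ] H => QQ e g Y) (QQ_par e g) h0
    (fun k => L (Finsupp.single (k + 1) 1)) n
  have hLs : ∀ (n : ℕ) (ε : ℕ → ℝ), ∑ k ∈ Finset.range n, (ε k : ℂ) • L (Finsupp.single (k + 1) 1)
      = L (∑ k ∈ Finset.range n, (ε k : ℂ) • Finsupp.single (k + 1) 1) := by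
    intro n ε
    rw [map_sum]
    exact Finset.sum_congr rfl fun k _ => (map_smul _ _ _).symm
  have ha0 : ∀ (n : ℕ) (ε : ℕ → ℝ),
      (∑ k ∈ Finset.range n, (ε k : ℂ) • (Finsupp.single (k + 1) 1 : ℕ →₀ ℂ)) 0 = 0 := by
    intro n ε
    rw [Finsupp.finset_sum_apply]
    refine Finset.sum_eq_zero fun k _ => ?_
    simp
  have hsq : ∀ n : ℕ, 0 < n → ((n : ℝ) ^ r) ^ 2 = (n : ℝ) ^ (2 * r - 1) * n := by
    intro n hn
    have hn' : (0 : ℝ) < n := by exact_mod_cast hn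
    rw [← Real.rpow_natCast, ← Real.rpow_mul hn'.le]
    conv_rhs => rw [← Real.rpow_one (n : ℝ)]
    rw [Real.rpow_one, ← Real.rpow_add_one hn'.ne']
    congr 1
    push_cast
    ring
  have r1 : 2 * r - 1 ≤ 0 := by
    refine growth (A := M ^ 2) (B := 2 * m) (by positivity) fun n hn => ?_
    have hn' : (0 : ℝ) < n := by exact_mod_cast hn
    obtain ⟨⟨ε, hε, h1⟩, -⟩ := hsg n
    rw [hLs] at h1
    have h2 := hlow _ (ha0 n ε)
    rw [hN.signs n ε hn hε, hsq n hn] at h2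
    have h3 : ∑ k ∈ Finset.range n, QQ e g (L (Finsupp.single (k + 1) 1)) ≤ n * (2 * m) := by
      refine (Finset.sum_le_sum fun k _ => hup _).trans (le_of_eq ?_)
      simp only [hone, one_pow, mul_one]
      rw [Finset.sum_const, Finset.card_range, nsmul_eq_mul]
    have h4 : M ^ 2 * ((n : ℝ) ^ (2 * r - 1) * n) ≤ n * (2 * m) := by linarith
    have h5 : (M ^ 2 * (n : ℝ) ^ (2 * r - 1)) * n ≤ (2 * m) * n := by linarith
    exact le_of_mul_le_mul_right h5 hn'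
  have r2 : 1 - 2 * r ≤ 0 := by
    refine growth (A := M ^ 2) (B := 2 * m) (by positivity) fun n hn => ?_
    have hn' : (0 : ℝ) < n := by exact_mod_cast hn
    obtain ⟨-, ⟨ε, hε, h1⟩⟩ := hsg n
    rw [hLs] at h1
    have h2 := hup (∑ k ∈ Finset.range n, (ε k : ℂ) • Finsupp.single (k + 1) 1)
    rw [hN.signs n ε hn hε, hsq n hn] at h2
    have h3 : n * M ^ 2 ≤ ∑ k ∈ Finset.range n, QQ e g (L (Finsupp.single (k + 1) 1)) := by
      have h6 : ∀ k ∈ Finset.range n, M ^ 2 ≤ QQ e g (L (Finsupp.single (k + 1) 1)) := by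
        intro k _
        have := hlow (Finsupp.single (k + 1) 1) (by simp)
        rwa [hone, one_pow, mul_one] at this
      refine le_trans (le_of_eq ?_) (Finset.sum_le_sum h6)
      rw [Finset.sum_const, Finset.card_range, nsmul_eq_mul]
    have h4 : n * M ^ 2 ≤ 2 * m * ((n : ℝ) ^ (2 * r - 1) * n) := by linarith
    have h5 : M ^ 2 * n ≤ (2 * m * (n : ℝ) ^ (2 * r - 1)) * n := by linarith
    have h6 := le_of_mul_le_mul_right h5 hn'
    have h7 : (n : ℝ) ^ (1 - 2 * r) * (n : ℝ) ^ (2 * r - 1) = 1 := by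
      rw [← Real.rpow_add hn']
      have : 1 - 2 * r + (2 * r - 1) = 0 := by ring
      rw [this, Real.rpow_zero]
    have h8 : 0 < (n : ℝ) ^ (1 - 2 * r) := Real.rpow_pos_of_pos hn' _
    calc M ^ 2 * (n : ℝ) ^ (1 - 2 * r) ≤ (2 * m * (n : ℝ) ^ (2 * r - 1)) * (n : ℝ) ^ (1 - 2 * r) :=
          mul_le_mul_of_nonneg_right h6 h8.le
      _ = 2 * m * ((n : ℝ) ^ (1 - 2 * r) * (n : ℝ) ^ (2 * r - 1)) := by ring
      _ = 2 * m := by rw [h7, mul_one]
  linarith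

end Pool.Agent.N678.EM
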