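import Pool.Agent.N678.EM.Tr
import Pool.Agent.N678.CL.Fin

set_option autoImplicit false
set_option linter.unusedSectionVars false
open scoped InnerProductSpace ENNReal
open Pool.Agent.Helper526.Sch Pool.Agent.N678.CL

namespace Pool.Agent.N678.EM

universe u v w

variable {H : Type u} [NormedAddCommGroup H] [InnerProductSpace ℂ H] [CompleteSpace H]

/-- orthogonal projection onto the span of `v k`, `k ∈ S` -/
noncomputable def prj {κ : Type w} (v : κ → H) (S : Finset κ) : H →L[ℂ] H :=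
  ∑ k ∈ S, (innerSL ℂ (v k)).smulRight (v k)

theorem prj_apply {κ : Type w} (v : κ → H) (S : Finset κ) (x : H) :
    prj v S x = ∑ k ∈ S, ⟪v k, x⟫_ℂ • v k := by
  simp [prj]

section
variable {κ : Type w} {v : κ → H} (hv : Orthonormal ℂ v) (S : Finset κ)
include hv

theorem inner_prj (k : κ) (hk : k ∈ S) (x : H) : ⟪v k, prj v S x⟫_ℂ = ⟪v k, x⟫_ℂ := by
  classical
  rw [prj_apply, inner_sum]
  rw [Finset.sum_eq_single k]
  · rw [inner_smul_right, orthonormal_iff_ite.1 hv k k]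
    simp
  · intro j _ hj
    rw [inner_smul_right, orthonormal_iff_ite.1 hv k j, if_neg (Ne.symm hj), mul_zero]
  · intro h
    exact absurd hk h

theorem inner_prj_not (k : κ) (hk : k ∉ S) (x : H) : ⟪v k, prj v S x⟫_ℂ = 0 := by
  classical
  rw [prj_apply, inner_sum]
  refine Finset.sum_eq_zero fun j hj => ?_
  rw [inner_smul_right, orthonormal_iff_ite.1 hv k j,
    if_neg (fun h => hk (by rw [h]; exact hj)), mul_zero]

theorem prj_v (k : κ) (hk : k ∈ S) : prj v S (v k) = v k := by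
  classical
  rw [prj_apply, Finset.sum_eq_single k]
  · rw [orthonormal_iff_ite.1 hv k k]
    simp
  · intro j _ hj
    rw [orthonormal_iff_ite.1 hv j k, if_neg hj, zero_smul]
  · intro h
    exact absurd hk h

theorem prj_v_not (k : κ) (hk : k ∉ S) : prj v S (v k) = 0 := by
  classical
  rw [prj_apply]
  refine Finset.sum_eq_zero fun j hj => ?_
  rw [orthonormal_iff_ite.1 hv j k, if_neg (fun h => hk (by rw [← h]; exact hj)), zero_smul]

omit hv in
theorem prj_zero {x : H} (h : ∀ k ∈ S, ⟪v k, x⟫_ℂ = 0) : prj v S x = 0 := by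
  rw [prj_apply]
  exact Finset.sum_eq_zero fun j hj => by rw [h j hj, zero_smul]

omit hv in
theorem star_prj : star (prj v S) = prj v S := by
  refine ContinuousLinearMap.ext fun x => ?_
  refine ext_inner_right ℂ fun z => ?_
  rw [inner_star_left, prj_apply, prj_apply, inner_sum, sum_inner]
  refine Finset.sum_congr rfl fun k _ => ?_
  rw [inner_smul_left, inner_smul_right, inner_conj_symm]
  ring

theorem norm_sub_prj (x : H) : ‖x - prj v S x‖ ≤ ‖x‖ := by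
  have h1 : ⟪prj v S x, x - prj v S x⟫_ℂ = 0 := by
    rw [prj_apply, sum_inner]
    refine Finset.sum_eq_zero fun k hk => ?_
    rw [inner_smul_left, inner_sub_right, ← prj_apply, inner_prj hv S k hk, sub_self, mul_zero]
  have h2 : ‖x‖ ^ 2 = ‖prj v S x‖ ^ 2 + ‖x - prj v S x‖ ^ 2 := by
    have := norm_add_sq_eq_norm_sq_add_norm_sq_of_inner_eq_zero (𝕜 := ℂ)
      (prj v S x) (x - prj v S x) h1
    rw [add_sub_cancel] at this
    rw [sq, sq, sq]
    exact this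
  have h3 : ‖x - prj v S x‖ ^ 2 ≤ ‖x‖ ^ 2 := by
    rw [h2]
    linarith [sq_nonneg ‖prj v S x‖]
  exact le_of_sq_le_sq h3 (norm_nonneg _)

end

theorem tsum_sum' {α β : Type*} (g : α ⊕ β → ℝ≥0∞) :
    ∑' x, g x = ∑' a, g (Sum.inl a) + ∑' c, g (Sum.inr c) := by
  have h1 : HasSum (g ∘ Sum.inl) (∑' a, g (Sum.inl a)) := ENNReal.summable.hasSum
  have h2 : HasSum (g ∘ Sum.inr) (∑' c, g (Sum.inr c)) := ENNReal.summable.hasSum
  exact (HasSum.sum h1 h2).tsum_eq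

/-- additivity for orthogonal operators -/
theorem tr_disjoint {κ₁ : Type w} {κ₂ : Type u} {Z B : H →L[ℂ] H} {v₁ y₁ : κ₁ → H} {σ₁ : κ₁ → ℝ}
    {v₂ y₂ : κ₂ → H} {σ₂ : κ₂ → ℝ} (hσ₁ : ∀ k, 0 ≤ σ₁ k) (hσ₂ : ∀ k, 0 ≤ σ₂ k)
    (hv₁ : Orthonormal ℂ v₁) (hy₁ : Orthonormal ℂ y₁) (hv₂ : Orthonormal ℂ v₂)
    (hy₂ : Orthonormal ℂ y₂) (hv : ∀ i j, ⟪v₁ i, v₂ j⟫_ℂ = 0) (hy : ∀ i j, ⟪y₁ i, y₂ j⟫_ℂ = 0)
    (hZ1 : ∀ i, Z (v₁ i) = (σ₁ i : ℂ) • y₁ i) (hZ0 : ∀ x, (∀ i, ⟪v₁ i, x⟫_ℂ = 0) → Z x = 0)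
    (hB1 : ∀ i, B (v₂ i) = (σ₂ i : ℂ) • y₂ i) (hB0 : ∀ x, (∀ i, ⟪v₂ i, x⟫_ℂ = 0) → B x = 0)
    {ι : Type v} (b : HilbertBasis ι ℂ H) {p : ℝ} (hp : 0 < p) :
    trAbsPow b p (Z + B) = trAbsPow b p Z + trAbsPow b p B := by
  classical
  rw [tr_of_system hσ₁ hv₁ hy₁ hZ1 hZ0 b hp, tr_of_system hσ₂ hv₂ hy₂ hB1 hB0 b hp,
    tr_of_system (κ := κ₁ ⊕ κ₂) (X := Z + B) (v := Sum.elim v₁ v₂) (y := Sum.elim y₁ y₂)
      (σ := Sum.elim σ₁ σ₂) ?_ ?_ ?_ ?_ ?_ b hp, tsum_sum']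
  · rfl
  · rintro (i | i)
    · exact hσ₁ i
    · exact hσ₂ i
  · rw [orthonormal_iff_ite]
    rintro (i | i) (j | j)
    · simpa using orthonormal_iff_ite.1 hv₁ i j
    · simpa using hv i j
    · simp only [Sum.elim_inr, Sum.elim_inl]
      rw [← inner_conj_symm, hv j i]
      simp
    · simpa using orthonormal_iff_ite.1 hv₂ i j
  · rw [orthonormal_iff_ite]
    rintro (i | i) (j | j)
    · simpa using orthonormal_iff_ite.1 hy₁ i j
    · simpa using hy i j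
    · simp only [Sum.elim_inr, Sum.elim_inl]
      rw [← inner_conj_symm, hy j i]
      simp
    · simpa using orthonormal_iff_ite.1 hy₂ i j
  · rintro (i | i)
    · have : B (v₁ i) = 0 := hB0 _ fun j => by
        rw [← inner_conj_symm, hv i j]
        simp
      change Z (v₁ i) + B (v₁ i) = _
      rw [this, hZ1, add_zero]
      rfl
    · have : Z (v₂ i) = 0 := hZ0 _ fun j => hv j i
      change Z (v₂ i) + B (v₂ i) = _
      rw [this, hB1, zero_add]
      rfl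
  · intro x hx
    change Z x + B x = 0
    rw [hZ0 x (fun i => hx (Sum.inl i)), hB0 x (fun i => hx (Sum.inr i)), add_zero]

theorem SV.zero {X : H →L[ℂ] H} (s : SV X) {x : H} (h : ∀ k, ⟪s.v k, x⟫_ℂ = 0) : X x = 0 := by
  refine ext_inner_left ℂ fun z => ?_
  rw [inner_zero_right]
  have h1 := s.hs x z
  simp only [h, mul_zero] at h1
  exact h1.unique hasSum_zero

theorem SV.inner_y {X : H →L[ℂ] H} (s : SV X) (k : s.κ) (x : H) :
    ⟪s.y k, X x⟫_ℂ = (s.σ k : ℂ) * ⟪s.v k, x⟫_ℂ := by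
  classical
  have h1 := s.hs x (s.y k)
  have h2 : HasSum (fun j => (s.σ j : ℂ) * (⟪s.y k, s.y j⟫_ℂ * ⟪s.v j, x⟫_ℂ))
      ((s.σ k : ℂ) * ⟪s.v k, x⟫_ℂ) := by
    convert hasSum_single k ?_ using 1
    · rw [orthonormal_iff_ite.1 s.oy k k]
      simp
    · intro j hj
      rw [orthonormal_iff_ite.1 s.oy k j, if_neg (Ne.symm hj)]
      simp
  exact h1.unique h2

end Pool.Agent.N678.EM
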