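import Pool.Agent.N678.EM.Inf

set_option autoImplicit false
set_option linter.unusedSectionVars false
open scoped InnerProductSpace ENNReal
open Pool.Agent.Helper526.Sch Pool.Agent.N678.CL Filter Topology

namespace Pool.Agent.N678.EM

universe u v w

variable {H : Type u} [NormedAddCommGroup H] [InnerProductSpace ℂ H] [CompleteSpace H]

/-- The Schatten (quasi-)norm `‖X‖_p ∈ [0, ∞]`, `0 < p ≤ ∞`, of an operator on a Hilbert space with the
Hilbert basis `c`: `(tr |X|^p)^(1/p)` for `p < ∞`, the operator norm for `p = ∞`. -/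
noncomputable def SNorm (c : HilbertBasis ℕ ℂ H) (p : ℝ≥0∞) (X : H →L[ℂ] H) : ℝ≥0∞ :=
  if p = ⊤ then ENNReal.ofReal ‖X‖ else trAbsPow c p.toReal X ^ (1 / p.toReal)

/-- The Schatten class `S_p`: the compact operators `X` with `‖X‖_p < ∞`. -/
def InS (c : HilbertBasis ℕ ℂ H) (p : ℝ≥0∞) (X : H →L[ℂ] H) : Prop :=
  IsCompactOperator X ∧ SNorm c p X < ⊤

/-- `S_q(H)` embeds isometrically into `S_p(H)`: there is a map `J`, linear on `S_q`, which maps `S_q` into
`S_p`, with `‖J X‖_p = ‖X‖_q` for all `X ∈ S_q`. -/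
def Embeds (c : HilbertBasis ℕ ℂ H) (q p : ℝ≥0∞) : Prop :=
  ∃ J : (H →L[ℂ] H) → (H →L[ℂ] H),
    (∀ X Y, InS c q X → InS c q Y → J (X + Y) = J X + J Y) ∧
    (∀ (t : ℂ) X, InS c q X → J (t • X) = t • J X) ∧
    ∀ X, InS c q X → InS c p (J X) ∧ SNorm c p (J X) = SNorm c q X

/-- the norm of `ℓ_q`, `0 < q ≤ ∞` -/
noncomputable def nE (c : HilbertBasis ℕ ℂ H) (q : ℝ≥0∞) (a : ℕ →₀ ℂ) : ℝ :=
  if q = ⊤ then ‖DD c a‖ else nq q.toReal a

/-- `1/q` -/
noncomputable def rE (q : ℝ≥0∞) : ℝ := if q = ⊤ then 0 else 1 / q.toReal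

theorem like_nE (c : HilbertBasis ℕ ℂ H) {q : ℝ≥0∞} (hq : q ≠ 0) : Like (rE q) (nE c q) := by
  unfold rE
  have : nE c q = if q = ⊤ then (fun a => ‖DD c a‖) else nq q.toReal := by
    funext a
    unfold nE
    split_ifs <;> rfl
  rw [this]
  split_ifs with h
  · exact like_inf c
  · exact like_q (ENNReal.toReal_pos hq h)

theorem SNorm_DD (c : HilbertBasis ℕ ℂ H) {q : ℝ≥0∞} (hq : q ≠ 0) (a : ℕ →₀ ℂ) :
    SNorm c q (DD c a) = ENNReal.ofReal (nE c q a) := by
  unfold SNorm nE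
  split_ifs with h
  · rfl
  · have hq' := ENNReal.toReal_pos hq h
    rw [DD_tr c a hq', ENNReal.ofReal_rpow_of_nonneg (Finset.sum_nonneg fun _ _ => by positivity)
      (by positivity)]
    rfl

theorem InS_DD (c : HilbertBasis ℕ ℂ H) {q : ℝ≥0∞} (hq : q ≠ 0) (a : ℕ →₀ ℂ) :
    InS c q (DD c a) := ⟨DD_compact c a, by rw [SNorm_DD c hq]; exact ENNReal.ofReal_lt_top⟩

theorem toL {c : HilbertBasis ℕ ℂ H} {q p : ℝ≥0∞} (hq : q ≠ 0) (h : Embeds c q p) :
    ∃ L : (ℕ →₀ ℂ) →ₗ[ℂ] (H →L[ℂ] H), ∀ a, IsCompactOperator (L a) ∧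
      SNorm c p (L a) = ENNReal.ofReal (nE c q a) := by
  obtain ⟨J, h1, h2, h3⟩ := h
  refine ⟨{ toFun := fun a => J (DD c a)
            map_add' := fun a a' => by
              rw [map_add, h1 _ _ (InS_DD c hq a) (InS_DD c hq a')]
            map_smul' := fun t a => by
              rw [map_smul, h2 t _ (InS_DD c hq a)]
              rfl }, fun a => ?_⟩
  have := h3 _ (InS_DD c hq a)
  exact ⟨this.1.1, this.2.trans (SNorm_DD c hq a)⟩

theorem no_two {c : HilbertBasis ℕ ℂ H} {q p : ℝ≥0∞} (hq : q ≠ 0) (hp : p ≠ 0) (hp2 : p ≤ 2)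
    (h : Embeds c q p) : q = 2 ∨ q = p := by
  have hpt : p ≠ ⊤ := ne_top_of_le_ne_top (by simp) hp2
  have hpr := ENNReal.toReal_pos hp hpt
  have hpr2 : p.toReal ≤ 2 := by
    have := ENNReal.toReal_mono (by simp) hp2
    simpa using this
  obtain ⟨L, hL⟩ := toL hq h
  have hN := like_nE c hq
  have htr : ∀ a, trAbsPow c p.toReal (L a) = ENNReal.ofReal (nE c q a ^ p.toReal) := by
    intro a
    have h1 := (hL a).2
    unfold SNorm at h1
    rw [if_neg hpt] at h1
    have h2 := congrArg (fun x => x ^ p.toReal) h1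
    rw [← ENNReal.rpow_mul, one_div, inv_mul_cancel₀ hpr.ne', ENNReal.rpow_one,
      ENNReal.ofReal_rpow_of_nonneg (hN.nonneg a) hpr.le] at h2
    exact h2
  have hS : ∀ a, IsSchatten c p.toReal (L a) := fun a =>
    ⟨(hL a).1, by rw [htr]; exact ENNReal.ofReal_lt_top⟩
  have hf : ∀ a, f c p.toReal (L a) = nE c q a ^ p.toReal := by
    intro a
    unfold f
    rw [htr, ENNReal.toReal_ofReal (Real.rpow_nonneg (hN.nonneg a) _)]
  have := main_le_two c hpr hpr2 hN L hS hf
  unfold rE at this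
  split_ifs at this with hqt
  · rcases this with h | h
    · norm_num at h
    · have : 0 < 1 / p.toReal := by positivity
      linarith
  · have hqr := ENNReal.toReal_pos hq hqt
    rcases this with h | h
    · left
      have h2 : q.toReal = 2 := by
        field_simp at h
        linarith
      rw [← ENNReal.ofReal_toReal hqt, h2]
      simp
    · right
      have h2 : q.toReal = p.toReal := by
        field_simp at h
        linarith
      rw [← ENNReal.ofReal_toReal hqt, h2, ENNReal.ofReal_toReal hpt]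

theorem no_inf {c : HilbertBasis ℕ ℂ H} {q : ℝ≥0∞} (hq : q ≠ 0)
    (h : Embeds c q ⊤) : q = 2 ∨ q = ⊤ := by
  obtain ⟨L, hL⟩ := toL hq h
  have hN := like_nE c hq
  have hf : ∀ a, ‖L a‖ = nE c q a := by
    intro a
    have h1 := (hL a).2
    unfold SNorm at h1
    rw [if_pos rfl] at h1
    have h2 := congrArg ENNReal.toReal h1
    rwa [ENNReal.toReal_ofReal (norm_nonneg _), ENNReal.toReal_ofReal (hN.nonneg a)] at h2
  have := main_inf c hN L (fun a => (hL a).1) hf
  by_cases hqt : q = ⊤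
  · exact Or.inr hqt
  left
  unfold rE at this
  rw [if_neg hqt] at this
  have hqr := ENNReal.toReal_pos hq hqt
  rcases this with h | h
  · have h2 : q.toReal = 2 := by
      field_simp at h
      linarith
    rw [← ENNReal.ofReal_toReal hqt, h2]
    simp
  · have : 0 < 1 / q.toReal := by positivity
    linarith

/-! ### the embedding for `q = 2` -/

theorem tr_two (c : HilbertBasis ℕ ℂ H) (T : H →L[ℂ] H) :
    trAbsPow c 2 T = ∑' i, ENNReal.ofReal (‖T (c i)‖ ^ 2) := by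
  unfold trAbsPow absPow
  refine tsum_congr fun i => ?_
  congr 1
  have : (star T * T : H →L[ℂ] H) ^ ((2 : ℝ) / 2) = star T * T := by
    rw [div_self two_ne_zero, CFC.rpow_one _ (star_mul_nonneg T)]
  rw [this, re_inner_star_mul]

/-- the matrix entries -/
noncomputable def ent (c : HilbertBasis ℕ ℂ H) (T : H →L[ℂ] H) (n : ℕ) : ℂ :=
  ⟪c n.unpair.2, T (c n.unpair.1)⟫_ℂ

theorem ent_sum (c : HilbertBasis ℕ ℂ H) (T : H →L[ℂ] H) :
    ∑' n, ENNReal.ofReal (‖ent c T n‖ ^ 2) = trAbsPow c 2 T := by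
  rw [tr_two]
  have h1 : ∑' n, ENNReal.ofReal (‖ent c T n‖ ^ 2) =
      ∑' x : ℕ × ℕ, ENNReal.ofReal (‖⟪c x.2, T (c x.1)⟫_ℂ‖ ^ 2) := by
    rw [← Nat.pairEquiv.symm.tsum_eq]
    rfl
  rw [h1, ENNReal.tsum_prod']
  refine tsum_congr fun i => ?_
  rw [← tsum_ofReal_inner_sq c (T (c i))]
  refine tsum_congr fun j => ?_
  rw [← inner_conj_symm, RCLike.norm_conj]

theorem ent_mem (c : HilbertBasis ℕ ℂ H) {T : H →L[ℂ] H} (h : trAbsPow c 2 T ≠ ∞) :
    Memℓp (ent c T) 2 := by
  rw [memℓp_gen_iff (by norm_num)]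
  rw [← ent_sum] at h
  have h1 := ENNReal.summable_toReal h
  refine h1.congr fun n => ?_
  rw [ENNReal.toReal_ofReal (by positivity)]
  simp

open Classical in
/-- a unitary from `S_2(H)` onto a subspace of `H` -/
noncomputable def psi (c : HilbertBasis ℕ ℂ H) (T : H →L[ℂ] H) : H :=
  if h : trAbsPow c 2 T ≠ ∞ then c.repr.symm ⟨ent c T, ent_mem c h⟩ else 0

theorem repr_psi (c : HilbertBasis ℕ ℂ H) {T : H →L[ℂ] H} (h : trAbsPow c 2 T ≠ ∞) (n : ℕ) :
    ⟪c n, psi c T⟫_ℂ = ent c T n := by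
  unfold psi
  rw [dif_pos h, ← HilbertBasis.repr_apply_apply, LinearIsometryEquiv.apply_symm_apply]

theorem norm_psi (c : HilbertBasis ℕ ℂ H) {T : H →L[ℂ] H} (h : trAbsPow c 2 T ≠ ∞) :
    ENNReal.ofReal (‖psi c T‖ ^ 2) = trAbsPow c 2 T := by
  rw [← ent_sum, ← tsum_ofReal_inner_sq c (psi c T)]
  refine tsum_congr fun n => ?_
  rw [← repr_psi c h, ← inner_conj_symm, RCLike.norm_conj]

theorem ext_c (c : HilbertBasis ℕ ℂ H) {x y : H} (h : ∀ n, ⟪c n, x⟫_ℂ = ⟪c n, y⟫_ℂ) : x = y := by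
  apply c.repr.injective
  ext n
  rw [HilbertBasis.repr_apply_apply, HilbertBasis.repr_apply_apply, h]

/-- the rank one operator `y ↦ ⟪c 0, y⟫ x` -/
noncomputable def rk (c : HilbertBasis ℕ ℂ H) (x : H) : H →L[ℂ] H := (innerSL ℂ (c 0)).smulRight x

theorem rk_apply (c : HilbertBasis ℕ ℂ H) (x y : H) : rk c x y = ⟪c 0, y⟫_ℂ • x := rfl

theorem tr_rk (c : HilbertBasis ℕ ℂ H) (x : H) {p : ℝ} (hp : 0 < p) :
    trAbsPow c p (rk c x) = ENNReal.ofReal (‖x‖ ^ p) := by
  classical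
  have h := tr_of_system (κ := Unit) (X := rk c x) (v := fun _ => c 0)
    (y := fun _ => if x = 0 then c 0 else ((‖x‖ : ℂ))⁻¹ • x) (σ := fun _ => ‖x‖)
    (fun _ => norm_nonneg _) ?_ ?_ ?_ ?_ c hp
  · rw [h, tsum_fintype]
    simp
  · rw [orthonormal_iff_ite]
    intro i j
    simp [c.orthonormal.1 0]
  · rw [orthonormal_iff_ite]
    intro i j
    simp only [if_true]
    split_ifs with hx
    · simp [c.orthonormal.1 0]
    · rw [inner_self_eq_norm_sq_to_K, norm_smul, norm_inv, Complex.norm_real, norm_norm,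
        inv_mul_cancel₀ (norm_ne_zero_iff.2 hx)]
      simp
  · intro _
    rw [rk_apply, inner_self_eq_norm_sq_to_K, c.orthonormal.1 0]
    split_ifs with hx
    · subst hx; simp
    · have : (‖x‖ : ℂ) ≠ 0 := by simpa using hx
      rw [smul_smul, mul_inv_cancel₀ this]
      simp
  · intro y hy
    rw [rk_apply, hy (), zero_smul]

theorem rk_compact (c : HilbertBasis ℕ ℂ H) (x : H) : IsCompactOperator (rk c x) := by
  have h1 : IsCompactOperator (innerSL ℂ (c 0)) :=
    isCompactOperator_of_locallyCompactSpace_dom (innerSL ℂ (c 0))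
  exact h1.clm_comp (ContinuousLinearMap.toSpanSingleton ℂ x)

theorem norm_rk (c : HilbertBasis ℕ ℂ H) (x : H) : ‖rk c x‖ = ‖x‖ := by
  unfold rk
  rw [ContinuousLinearMap.norm_smulRight_apply, innerSL_apply_norm, c.orthonormal.1 0, one_mul]

theorem InS_two {c : HilbertBasis ℕ ℂ H} {X : H →L[ℂ] H} (h : InS c 2 X) :
    trAbsPow c 2 X ≠ ∞ := by
  have h1 := h.2
  unfold SNorm at h1
  rw [if_neg (by simp)] at h1
  have e : (2 : ℝ≥0∞).toReal = 2 := by simp
  rw [e] at h1
  intro htop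
  rw [htop, ENNReal.top_rpow_of_pos (by norm_num)] at h1
  exact absurd h1 (lt_irrefl _)

theorem embeds_two (c : HilbertBasis ℕ ℂ H) {p : ℝ≥0∞} (hp : p ≠ 0) : Embeds c 2 p := by
  have e2 : (2 : ℝ≥0∞).toReal = 2 := by simp
  have hadd : ∀ X Y, InS c 2 X → InS c 2 Y → trAbsPow c 2 (X + Y) ≠ ∞ := by
    intro X Y hX hY
    exact (trAbsPow_add_lt_top c hX.1 hY.1 (by norm_num) (InS_two hX).lt_top
      (InS_two hY).lt_top).ne
  have hsmul : ∀ (t : ℂ) X, InS c 2 X → trAbsPow c 2 (t • X) ≠ ∞ := by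
    intro t X hX
    exact (schatten_smul_mem c (by norm_num) t ⟨hX.1, (InS_two hX).lt_top⟩).2.ne
  refine ⟨fun T => rk c (psi c T), fun X Y hX hY => ?_, fun t X hX => ?_, fun X hX => ?_⟩
  · have : psi c (X + Y) = psi c X + psi c Y := by
      refine ext_c c fun n => ?_
      rw [inner_add_right, repr_psi c (hadd X Y hX hY), repr_psi c (InS_two hX),
        repr_psi c (InS_two hY)]
      unfold ent
      rw [← inner_add_right]
      rfl
    dsimp only
    rw [this]
    refine ContinuousLinearMap.ext fun y => ?_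
    change ⟪c 0, y⟫_ℂ • (psi c X + psi c Y) = ⟪c 0, y⟫_ℂ • psi c X + ⟪c 0, y⟫_ℂ • psi c Y
    rw [smul_add]
  · have : psi c (t • X) = t • psi c X := by
      refine ext_c c fun n => ?_
      rw [inner_smul_right, repr_psi c (hsmul t X hX), repr_psi c (InS_two hX)]
      unfold ent
      rw [← inner_smul_right]
      rfl
    dsimp only
    rw [this]
    refine ContinuousLinearMap.ext fun y => ?_
    change ⟪c 0, y⟫_ℂ • (t • psi c X) = t • (⟪c 0, y⟫_ℂ • psi c X)
    rw [smul_comm]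
  · have hn := norm_psi c (InS_two hX)
    have h2 : SNorm c 2 X = ENNReal.ofReal ‖psi c X‖ := by
      unfold SNorm
      rw [if_neg (by simp), e2, ← hn, ENNReal.ofReal_rpow_of_nonneg (by positivity) (by norm_num),
        ← Real.rpow_natCast, ← Real.rpow_mul (norm_nonneg _)]
      norm_num
    have h3 : SNorm c p (rk c (psi c X)) = ENNReal.ofReal ‖psi c X‖ := by
      unfold SNorm
      split_ifs with hpt
      · rw [norm_rk]
      · have hpr := ENNReal.toReal_pos hp hpt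
        rw [tr_rk c _ hpr, ENNReal.ofReal_rpow_of_nonneg (by positivity) (by positivity),
          ← Real.rpow_mul (norm_nonneg _), mul_one_div_cancel hpr.ne', Real.rpow_one]
    exact ⟨⟨rk_compact c _, by rw [h3]; exact ENNReal.ofReal_lt_top⟩, h3.trans h2.symm⟩

end Pool.Agent.N678.EM
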