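import Pool.Agent.N678.EM.Main2

set_option autoImplicit false
set_option linter.unusedSectionVars false
open scoped InnerProductSpace ENNReal
open Pool.Agent.Helper526.Sch Pool.Agent.N678.CL Filter Topology

namespace Pool.Agent.N678.EM

universe u v w

variable {H : Type u} [NormedAddCommGroup H] [InnerProductSpace ℂ H] [CompleteSpace H]

theorem prj_tendsto (c : HilbertBasis ℕ ℂ H) (x : H) :
    Tendsto (fun S : Finset ℕ => prj c S x) atTop (𝓝 x) := by
  have h : Tendsto (fun S : Finset ℕ => ∑ k ∈ S, c.repr x k • c k) atTop (𝓝 x) := c.hasSum_repr x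
  refine h.congr fun S => ?_
  rw [prj_apply]
  exact Finset.sum_congr rfl fun k _ => by rw [HilbertBasis.repr_apply_apply]

theorem approx (c : HilbertBasis ℕ ℂ H) {X : H →L[ℂ] H} (hX : IsCompactOperator X) {δ : ℝ}
    (hδ : 0 < δ) : ∀ᶠ S : Finset ℕ in atTop, ‖X - prj c S * X‖ ≤ δ := by
  have hK : IsCompact (closure (X '' Metric.closedBall 0 1)) :=
    hX.isCompact_closure_image_closedBall (f := (X : H →ₗ[ℂ] H)) 1
  obtain ⟨t, ht, hcov⟩ := Metric.totallyBounded_iff.1 hK.totallyBounded (δ / 3) (by positivity)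
  have h1 : ∀ᶠ S : Finset ℕ in atTop, ∀ x ∈ t, ‖x - prj c S x‖ < δ / 3 := by
    rw [ht.eventually_all]
    intro x _
    have h2 := (tendsto_const_nhds (x := x)).sub (prj_tendsto c x)
    rw [sub_self] at h2
    have h3 := h2.norm
    rw [norm_zero] at h3
    exact h3.eventually_lt_const (by positivity)
  filter_upwards [h1] with S hS
  refine ContinuousLinearMap.opNorm_le_of_unit_norm hδ.le fun x hx => ?_
  have hmem : X x ∈ closure (X '' Metric.closedBall 0 1) :=
    subset_closure ⟨x, by simp [hx], rfl⟩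
  have := hcov hmem
  simp only [Set.mem_iUnion, Metric.mem_ball] at this
  obtain ⟨y, hy, hd⟩ := this
  rw [dist_eq_norm] at hd
  change ‖X x - prj c S (X x)‖ ≤ δ
  have e1 : X x - prj c S (X x) = ((X x - y) - prj c S (X x - y)) + (y - prj c S y) := by
    rw [map_sub]
    abel
  rw [e1]
  refine (norm_add_le _ _).trans ?_
  have := norm_sub_prj c.orthonormal S (X x - y)
  have := hS y hy
  linarith

theorem norm_one_sub_prj (c : HilbertBasis ℕ ℂ H) (S : Finset ℕ) :
    ‖(1 : H →L[ℂ] H) - prj c S‖ ≤ 1 :=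
  ContinuousLinearMap.opNorm_le_bound _ zero_le_one fun x => by
    rw [one_mul]
    exact norm_sub_prj c.orthonormal S x

theorem pyth (c : HilbertBasis ℕ ℂ H) (S : Finset ℕ) (x : H) :
    ‖prj c S x‖ ^ 2 + ‖x - prj c S x‖ ^ 2 = ‖x‖ ^ 2 := by
  have h1 : ⟪prj c S x, x - prj c S x⟫_ℂ = 0 := by
    rw [prj_apply, sum_inner]
    refine Finset.sum_eq_zero fun k hk => ?_
    rw [inner_smul_left, inner_sub_right, ← prj_apply, inner_prj c.orthonormal S k hk, sub_self,
      mul_zero]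
  have := norm_add_sq_eq_norm_sq_add_norm_sq_of_inner_eq_zero (𝕜 := ℂ)
      (prj c S x) (x - prj c S x) h1
  rw [add_sub_cancel] at this
  rw [sq, sq, sq]
  exact this.symm

theorem norm_prj (c : HilbertBasis ℕ ℂ H) (S : Finset ℕ) (x : H) : ‖prj c S x‖ ≤ ‖x‖ := by
  have := pyth c S x
  exact le_of_sq_le_sq (by nlinarith [sq_nonneg ‖x - prj c S x‖]) (norm_nonneg _)

theorem approx' (c : HilbertBasis ℕ ℂ H) {X : H →L[ℂ] H} (hX : IsCompactOperator X) {δ : ℝ}
    (hδ : 0 < δ) : ∀ᶠ S : Finset ℕ in atTop, ‖X - X * prj c S‖ ≤ δ := by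
  have hXX : IsCompactOperator (star X * X : H →L[ℂ] H) := hX.clm_comp (star X)
  filter_upwards [approx c hXX (by positivity : 0 < δ ^ 2)] with S hS
  have e1 : X - X * prj c S = X * (1 - prj c S) := by noncomm_ring
  rw [e1]
  refine le_of_sq_le_sq ?_ hδ.le
  have h1 : ‖X * (1 - prj c S)‖ ^ 2 = ‖star (X * (1 - prj c S)) * (X * (1 - prj c S))‖ := by
    rw [CStarRing.norm_star_mul_self, sq]
  have h2 : star (X * (1 - prj c S)) * (X * (1 - prj c S)) =
      (star X * X - prj c S * (star X * X)) * (1 - prj c S) := by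
    rw [star_mul, star_sub, star_one, star_prj]
    noncomm_ring
  rw [h1, h2]
  refine (norm_mul_le _ _).trans ?_
  calc ‖star X * X - prj c S * (star X * X)‖ * ‖(1 : H →L[ℂ] H) - prj c S‖ ≤ δ ^ 2 * 1 :=
        mul_le_mul hS (norm_one_sub_prj c S) (norm_nonneg _) (by positivity)
    _ = δ ^ 2 := mul_one _

theorem norm_mul_prj (c : HilbertBasis ℕ ℂ H) (S : Finset ℕ) {Y : H →L[ℂ] H} {M : ℝ}
    (h : ∀ k ∈ S, ‖Y (c k)‖ ≤ M) (hM : 0 ≤ M) : ‖Y * prj c S‖ ≤ S.card * M := by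
  refine ContinuousLinearMap.opNorm_le_bound _ (by positivity) fun x => ?_
  change ‖Y (prj c S x)‖ ≤ _
  rw [prj_apply, map_sum]
  refine (norm_sum_le _ _).trans ?_
  calc ∑ k ∈ S, ‖Y (⟪c k, x⟫_ℂ • c k)‖ ≤ ∑ k ∈ S, M * ‖x‖ := by
        refine Finset.sum_le_sum fun k hk => ?_
        rw [map_smul, norm_smul]
        have h1 : ‖⟪c k, x⟫_ℂ‖ ≤ ‖x‖ := by
          have := norm_inner_le_norm (𝕜 := ℂ) (c k) x
          rwa [c.orthonormal.1 k, one_mul] at this
        have := h k hk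
        have := norm_nonneg (Y (c k))
        calc ‖⟪c k, x⟫_ℂ‖ * ‖Y (c k)‖ ≤ ‖x‖ * M := by gcongr
          _ = M * ‖x‖ := mul_comm _ _
    _ = S.card * M * ‖x‖ := by rw [Finset.sum_const, nsmul_eq_mul]; ring

theorem key_inf (c : HilbertBasis ℕ ℂ H) {X : H →L[ℂ] H} (hX : IsCompactOperator X)
    (hX1 : ‖X‖ = 1) {ε : ℝ} (hε : 0 < ε) :
    ∃ (m : ℕ) (e : Fin m → H) (M : ℝ), 0 < M ∧ (∀ i, ‖e i‖ = 1) ∧
      ∀ Y : H →L[ℂ] H, ‖Y‖ = 1 → (∀ i, ‖Y (e i)‖ ≤ M) → (∀ i, ‖(star Y) (e i)‖ ≤ M) →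
        ‖X + Y‖ ≤ 1 + ε := by
  classical
  obtain ⟨S, hS1, hS2⟩ := ((approx c hX (by positivity : 0 < ε / 4)).and
    (approx' c hX (by positivity : 0 < ε / 4))).exists
  set M : ℝ := ε / (4 * (S.card + 1)) with hM
  have hM0 : 0 < M := by positivity
  have hSM : S.card * M ≤ ε / 4 := by
    rw [hM, mul_div_assoc', div_le_div_iff₀ (by positivity) (by norm_num)]
    nlinarith [(Nat.cast_nonneg S.card : (0 : ℝ) ≤ S.card)]
  let eS := S.equivFin
  refine ⟨S.card, fun i => c (eS.symm i), M, hM0, fun i => c.orthonormal.1 _, ?_⟩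
  intro Y hY hYe hYg
  have h1 : ∀ k ∈ S, ‖Y (c k)‖ ≤ M := by
    intro k hk
    have := hYe (eS ⟨k, hk⟩)
    simpa using this
  have h2 : ∀ k ∈ S, ‖(star Y) (c k)‖ ≤ M := by
    intro k hk
    have := hYg (eS ⟨k, hk⟩)
    simpa using this
  set P : H →L[ℂ] H := prj c S with hP
  have hP1 : ‖P‖ ≤ 1 := ContinuousLinearMap.opNorm_le_bound _ zero_le_one fun x => by
    rw [one_mul]; exact norm_prj c S x
  have a1 := norm_mul_prj c S h1 hM0.le
  have a2 := norm_mul_prj c S h2 hM0.le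
  have a3 : ‖P * Y‖ ≤ S.card * M := by
    rw [← norm_star, star_mul, star_prj]
    exact a2
  have hdec : X + Y = (P * X * P + (1 - P) * Y * (1 - P)) + ((X - P * X) + P * (X - X * P)) +
      (P * Y * (1 - P) + Y * P) := by noncomm_ring
  have b1 : ‖P * X * P + (1 - P) * Y * (1 - P)‖ ≤ 1 := by
    refine ContinuousLinearMap.opNorm_le_bound _ zero_le_one fun x => ?_
    rw [one_mul]
    refine le_of_sq_le_sq ?_ (norm_nonneg _)
    set u := X (P x) with hu
    set w := Y (x - P x) with hw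
    have e1 : (P * X * P + (1 - P) * Y * (1 - P)) x = P u + (w - P w) := rfl
    have e2 : ⟪P u, w - P w⟫_ℂ = 0 := by
      rw [hP, prj_apply, sum_inner]
      refine Finset.sum_eq_zero fun k hk => ?_
      rw [inner_smul_left, inner_sub_right, inner_prj c.orthonormal S k hk, sub_self, mul_zero]
    have e3 := norm_add_sq_eq_norm_sq_add_norm_sq_of_inner_eq_zero (𝕜 := ℂ) (P u) (w - P w) e2
    have e4 : ‖P u‖ ≤ ‖P x‖ := by
      refine (norm_prj c S u).trans ?_
      have := X.le_opNorm (P x)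
      rwa [hX1, one_mul] at this
    have e5 : ‖w - P w‖ ≤ ‖x - P x‖ := by
      refine (norm_sub_prj c.orthonormal S w).trans ?_
      have := Y.le_opNorm (x - P x)
      rwa [hY, one_mul] at this
    have e6 := pyth c S x
    rw [e1, sq, e3]
    have := norm_nonneg (P u)
    have := norm_nonneg (w - P w)
    nlinarith
  have b2 : ‖P * (X - X * P)‖ ≤ ε / 4 := by
    refine (norm_mul_le _ _).trans ?_
    calc ‖P‖ * ‖X - X * P‖ ≤ 1 * (ε / 4) := mul_le_mul hP1 hS2 (norm_nonneg _) zero_le_one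
      _ = ε / 4 := one_mul _
  have b3 : ‖P * Y * (1 - P)‖ ≤ ε / 4 := by
    refine (norm_mul_le _ _).trans ?_
    calc ‖P * Y‖ * ‖1 - P‖ ≤ (S.card * M) * 1 :=
          mul_le_mul a3 (norm_one_sub_prj c S) (norm_nonneg _) (by positivity)
      _ ≤ ε / 4 := by rw [mul_one]; exact hSM
  rw [hdec]
  calc ‖(P * X * P + (1 - P) * Y * (1 - P)) + ((X - P * X) + P * (X - X * P)) +
      (P * Y * (1 - P) + Y * P)‖ ≤ ‖P * X * P + (1 - P) * Y * (1 - P)‖ +
        (‖X - P * X‖ + ‖P * (X - X * P)‖) + (‖P * Y * (1 - P)‖ + ‖Y * P‖) := by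
        refine (norm_add_le _ _).trans (add_le_add ((norm_add_le _ _).trans
          (add_le_add le_rfl (norm_add_le _ _))) (norm_add_le _ _))
    _ ≤ 1 + (ε / 4 + ε / 4) + (ε / 4 + ε / 4) := by
        have : ‖Y * P‖ ≤ ε / 4 := a1.trans hSM
        gcongr
    _ = 1 + ε := by ring

theorem main_inf (c : HilbertBasis ℕ ℂ H) {r : ℝ} {N : (ℕ →₀ ℂ) → ℝ} (hN : Like r N)
    (L : (ℕ →₀ ℂ) →ₗ[ℂ] (H →L[ℂ] H)) (hS : ∀ a, IsCompactOperator (L a))
    (hf : ∀ a, ‖L a‖ = N a) : r = 1 / 2 ∨ r ≤ 0 := by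
  by_cases hr : r = 1 / 2
  · exact Or.inl hr
  right
  by_contra hr0
  push Not at hr0
  have h2r : (1 : ℝ) < (2 : ℝ) ^ r := Real.one_lt_rpow (by norm_num) hr0
  obtain ⟨m, e, M, hM, he, hk⟩ := key_inf c (hS (Finsupp.single 0 1))
    (by rw [hf, hN.one]) (ε := ((2 : ℝ) ^ r - 1) / 2) (by linarith)
  by_cases hex : ∃ a : ℕ →₀ ℂ, a 0 = 0 ∧ N a = 1 ∧ QQ e e (L a) ≤ M ^ 2
  · obtain ⟨a, ha0, ha1, haQ⟩ := hex
    have h2 := hk (L a) (by rw [hf, ha1])
      (fun i => (QQ_small hM.le haQ i).1) (fun i => (QQ_small hM.le haQ i).2)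
    rw [← map_add, hf, hN.split a ha0 ha1] at h2
    linarith
  · push Not at hex
    exact hr (hilb hN L (fun a => (hf a).le) he he hM hex)

/-! ### the norm of `ℓ_∞` -/

theorem DD_norm_le (c : HilbertBasis ℕ ℂ H) (a : ℕ →₀ ℂ) {C : ℝ} (hC : 0 ≤ C)
    (h : ∀ k, ‖a k‖ ≤ C) : ‖DD c a‖ ≤ C := by
  refine ContinuousLinearMap.opNorm_le_bound _ hC fun x => ?_
  have h1 := hasSum_eigen c (isSelfAdjoint_star_mul (DD c a)) (DD_eig c a) x
  rw [re_inner_star_mul] at h1
  have h2 := (hasSum_sq c x).mul_right (C ^ 2)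
  have h3 := hasSum_le (fun k => mul_le_mul_of_nonneg_left
    (show ‖a k‖ ^ 2 ≤ C ^ 2 by have := h k; gcongr) (by positivity)) h1 h2
  refine le_of_sq_le_sq ?_ (by positivity)
  rw [mul_pow]
  linarith

theorem le_DD_norm (c : HilbertBasis ℕ ℂ H) (a : ℕ →₀ ℂ) (k : ℕ) : ‖a k‖ ≤ ‖DD c a‖ := by
  have := (DD c a).le_opNorm (c k)
  rwa [DD_apply, norm_smul, c.orthonormal.1 k, mul_one, mul_one] at this

theorem like_inf (c : HilbertBasis ℕ ℂ H) : Like 0 (fun a => ‖DD c a‖) where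
  nonneg a := norm_nonneg _
  pos a ha := by
    obtain ⟨k, hk⟩ := Finsupp.ne_iff.1 ha
    exact lt_of_lt_of_le (norm_pos_iff.2 (by simpa using hk)) (le_DD_norm c a k)
  hom t a := by
    rw [map_smul, norm_smul, Complex.norm_real, Real.norm_eq_abs]
  one := by
    refine le_antisymm (DD_norm_le c _ zero_le_one fun k => ?_) ?_
    · rw [Finsupp.single_apply]; split_ifs <;> simp
    · have := le_DD_norm c (Finsupp.single 0 1) 0
      simpa using this
  ones k := by
    refine le_antisymm (DD_norm_le c _ zero_le_one fun j => ?_) ?_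
    · rw [Finsupp.single_apply]; split_ifs <;> simp
    · have := le_DD_norm c (Finsupp.single (k + 1) 1) (k + 1)
      simpa using this
  split a ha0 ha1 := by
    rw [Real.rpow_zero]
    refine le_antisymm (DD_norm_le c _ zero_le_one fun j => ?_) ?_
    · rw [Finsupp.add_apply, Finsupp.single_apply]
      split_ifs with h
      · rw [← h, ha0]; simp
      · rw [zero_add]
        exact (le_DD_norm c a j).trans (le_of_eq ha1)
    · have := le_DD_norm c (Finsupp.single 0 1 + a) 0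
      rw [Finsupp.add_apply, ha0] at this
      simpa using this
  signs n ε hn hε := by
    rw [Real.rpow_zero]
    refine le_antisymm (DD_norm_le c _ zero_le_one fun j => ?_) ?_
    · rw [sgn_apply]
      split_ifs
      · rw [Complex.norm_real]
        rcases hε (j - 1) with h | h <;> rw [h] <;> simp
      · simp
    · have := le_DD_norm c (∑ k ∈ Finset.range n, (ε k : ℂ) • Finsupp.single (k + 1) 1) 1
      rw [sgn_apply, if_pos (by omega), Complex.norm_real] at this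
      refine le_trans (le_of_eq ?_) this
      rcases hε (1 - 1) with h | h <;> rw [h] <;> simp

end Pool.Agent.N678.EM
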