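import Pool.Agent.N678.EM.Dis

set_option autoImplicit false
set_option linter.unusedSectionVars false
open scoped InnerProductSpace ENNReal
open Pool.Agent.Helper526.Sch Pool.Agent.N678.CL Filter Topology

namespace Pool.Agent.N678.EM

universe u v w

variable {H : Type u} [NormedAddCommGroup H] [InnerProductSpace ℂ H] [CompleteSpace H]
  {ι : Type v} (b : HilbertBasis ι ℂ H) {p : ℝ}

theorem tr_neg (X : H →L[ℂ] H) : trAbsPow b p (-X) = trAbsPow b p X := by
  unfold trAbsPow absPow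
  simp

theorem f_neg (X : H →L[ℂ] H) : f b p (-X) = f b p X := by
  unfold f
  rw [tr_neg]

/-- operators small on finitely many vectors are almost orthogonal to a finite rank operator -/
theorem cut (hp0 : 0 < p) (hp2 : p ≤ 2) {κ : Type u} {v y : κ → H} (hv : Orthonormal ℂ v)
    (hy : Orthonormal ℂ y) (S : Finset κ) {Y : H →L[ℂ] H} (hY : IsSchatten b p Y) {M : ℝ}
    (hM : 0 ≤ M) (h1 : ∀ k ∈ S, ‖Y (v k)‖ ≤ M) (h2 : ∀ k ∈ S, ‖(star Y) (y k)‖ ≤ M) :
    IsSchatten b p (Y - (1 - prj y S) * Y * (1 - prj v S)) ∧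
      f b p (Y - (1 - prj y S) * Y * (1 - prj v S)) ≤ 4 * S.card * M ^ p := by
  classical
  have hYc : IsCompactOperator Y := hY.1
  set w2 : H →L[ℂ] H := Y * prj v S with hw2
  set w1 : H →L[ℂ] H := prj y S * Y * (1 - prj v S) with hw1
  have hdec : Y - (1 - prj y S) * Y * (1 - prj v S) = w1 + w2 := by
    rw [hw1, hw2]
    noncomm_ring
  have hc2 : IsCompactOperator w2 := hYc.comp_clm (prj v S)
  have hc1 : IsCompactOperator w1 := (hYc.clm_comp (prj y S)).comp_clm (1 - prj v S)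
  have hMp : ∀ t : ℝ, 0 ≤ t → t ≤ M → ENNReal.ofReal (t ^ p) ≤ ENNReal.ofReal (M ^ p) :=
    fun t ht htM => ENNReal.ofReal_le_ofReal (Real.rpow_le_rpow ht htM hp0.le)
  have t2 : trAbsPow b p w2 ≤ ENNReal.ofReal (S.card * M ^ p) := by
    refine (tr_le_of_system (κ := S) (Cpt.of_compact hc2).1 (v := fun k => v k)
      (hv.comp _ Subtype.val_injective) (fun x hx => ?_) b hp0 hp2).trans ?_
    · change Y (prj v S x) = 0
      rw [prj_zero S fun k hk => hx ⟨k, hk⟩, map_zero]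
    · rw [tsum_fintype]
      refine (Finset.sum_le_sum fun k _ => hMp _ (norm_nonneg _) ?_).trans (le_of_eq ?_)
      · change ‖Y (prj v S (v k))‖ ≤ M
        rw [prj_v hv S k k.2]
        exact h1 k k.2
      · rw [Finset.sum_const, Finset.card_univ, Fintype.card_coe, nsmul_eq_mul,
          ENNReal.ofReal_mul (by positivity), ENNReal.ofReal_natCast]
  have t1 : trAbsPow b p w1 ≤ ENNReal.ofReal (S.card * M ^ p) := by
    rw [← trAbsPow_star b (Cpt.of_compact hc1) hp0]
    have hs : star w1 = (1 - prj v S) * star Y * prj y S := by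
      rw [hw1, star_mul, star_mul, star_sub, star_one, star_prj, star_prj, mul_assoc]
    refine (tr_le_of_system (κ := S) (Cpt.of_compact hc1).star.1 (v := fun k => y k)
      (hy.comp _ Subtype.val_injective) (fun x hx => ?_) b hp0 hp2).trans ?_
    · rw [hs]
      change (1 - prj v S) ((star Y) (prj y S x)) = 0
      rw [prj_zero S fun k hk => hx ⟨k, hk⟩, map_zero, map_zero]
    · rw [tsum_fintype]
      refine (Finset.sum_le_sum fun k _ => hMp _ (norm_nonneg _) ?_).trans (le_of_eq ?_)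
      · rw [hs]
        change ‖(star Y) (prj y S (y k)) - prj v S ((star Y) (prj y S (y k)))‖ ≤ M
        rw [prj_v hy S k k.2]
        exact (norm_sub_prj hv S _).trans (h2 k k.2)
      · rw [Finset.sum_const, Finset.card_univ, Fintype.card_coe, nsmul_eq_mul,
          ENNReal.ofReal_mul (by positivity), ENNReal.ofReal_natCast]
  have s1 : IsSchatten b p w1 := ⟨hc1, t1.trans_lt ENNReal.ofReal_lt_top⟩
  have s2 : IsSchatten b p w2 := ⟨hc2, t2.trans_lt ENNReal.ofReal_lt_top⟩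
  rw [hdec]
  refine ⟨IsSchatten.add' b hp0 s1 s2, ?_⟩
  have h3 := mcc b hp0 hp2 s1 s2
  have h4 := f_nonneg (p := p) b (w1 - w2)
  have r1 : f b p w1 ≤ S.card * M ^ p :=
    ENNReal.toReal_le_of_le_ofReal (by positivity) t1
  have r2 : f b p w2 ≤ S.card * M ^ p :=
    ENNReal.toReal_le_of_le_ofReal (by positivity) t2
  linarith

theorem key (hp0 : 0 < p) (hp2 : p ≤ 2) {X : H →L[ℂ] H} (hX : IsSchatten b p X)
    (hfX : f b p X = 1) {ε : ℝ} (hε : 0 < ε) :
    ∃ (m : ℕ) (e g : Fin m → H) (M : ℝ), 0 < M ∧ (∀ i, ‖e i‖ = 1) ∧ (∀ i, ‖g i‖ = 1) ∧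
      ∀ Y : H →L[ℂ] H, IsSchatten b p Y → f b p Y = 1 →
        (∀ i, ‖Y (e i)‖ ≤ M) → (∀ i, ‖(star Y) (g i)‖ ≤ M) → 2 - ε ≤ f b p (X + Y) := by
  classical
  obtain ⟨s, hs⟩ := exists_SV.{u, v} hX.1
  have htr := hs p hp0 b
  obtain ⟨n, hn⟩ := exists_nat_gt (9 / ε + 1)
  have hn0 : 0 < n := by
    have : (0 : ℝ) < n := lt_trans (by positivity) hn
    exact_mod_cast this
  have hnr : (0 : ℝ) < n := by exact_mod_cast hn0
  have hn1 : 3 / (n : ℝ) ≤ ε / 3 := by
    rw [div_le_div_iff₀ hnr (by norm_num)]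
    have : 9 / ε < n := by linarith
    rw [div_lt_iff₀ hε] at this
    linarith
  have hn2 : (1 : ℝ) / n ≤ 1 := by
    rw [div_le_one hnr]
    exact_mod_cast hn0
  -- choice of S
  have hfin : ∑' k, ENNReal.ofReal (s.σ k ^ p) ≠ ∞ := by rw [← htr]; exact hX.2.ne
  have htail := ENNReal.tendsto_tsum_compl_atTop_zero hfin
  have hτ : (0 : ℝ≥0∞) < ENNReal.ofReal (ε / (3 * (1 + 2 * n))) :=
    ENNReal.ofReal_pos.2 (by positivity)
  obtain ⟨S, hS⟩ := (htail.eventually_lt_const hτ).exists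
  set z : H →L[ℂ] H := X * prj s.v S with hz
  have hzv : ∀ k ∈ S, z (s.v k) = (s.σ k : ℂ) • s.y k := by
    intro k hk
    change X (prj s.v S (s.v k)) = _
    rw [prj_v s.ov S k hk, s.ap]
  have hz0 : ∀ x, (∀ k ∈ S, ⟪s.v k, x⟫_ℂ = 0) → z x = 0 := by
    intro x hx
    change X (prj s.v S x) = 0
    rw [prj_zero S hx, map_zero]
  have htrz : trAbsPow b p z = ∑ k ∈ S, ENNReal.ofReal (s.σ k ^ p) := by
    rw [tr_of_system (κ := S) (X := z) (v := fun k => s.v k) (y := fun k => s.y k)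
      (σ := fun k => s.σ k) (fun k => (s.pos k).le) (s.ov.comp _ Subtype.val_injective)
      (s.oy.comp _ Subtype.val_injective) (fun k => hzv k k.2)
      (fun x hx => hz0 x fun k hk => hx ⟨k, hk⟩) b hp0, tsum_fintype]
    exact Finset.sum_coe_sort S (fun k => ENNReal.ofReal (s.σ k ^ p))
  have hxz : trAbsPow b p (X - z) = ∑' k : {k // k ∉ S}, ENNReal.ofReal (s.σ k ^ p) := by
    refine tr_of_system (κ := {k // k ∉ S}) (v := fun k => s.v k) (y := fun k => s.y k)
      (σ := fun k => s.σ k) (fun k => (s.pos k).le) (s.ov.comp _ Subtype.val_injective)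
      (s.oy.comp _ Subtype.val_injective) (fun k => ?_) (fun x hx => ?_) b hp0
    · change X (s.v k) - X (prj s.v S (s.v k)) = _
      rw [prj_v_not s.ov S k k.2, map_zero, sub_zero, s.ap]
    · change X x - X (prj s.v S x) = 0
      rw [← map_sub]
      refine SV.zero s fun k => ?_
      rw [inner_sub_right]
      by_cases hk : k ∈ S
      · rw [inner_prj s.ov S k hk, sub_self]
      · rw [inner_prj_not s.ov S k hk, hx ⟨k, hk⟩, sub_zero]
  have hzc : IsSchatten b p z := ⟨hX.1.comp_clm (prj s.v S), by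
    rw [htrz]
    refine lt_of_le_of_lt ?_ hX.2
    rw [htr]
    exact ENNReal.sum_le_tsum _⟩
  have hxzc : IsSchatten b p (X - z) := IsSchatten.sub' b hp0 hX hzc
  set τ : ℝ := f b p (X - z) with hτdef
  have hτ0 : 0 ≤ τ := f_nonneg b _
  have hτle : τ ≤ ε / (3 * (1 + 2 * n)) := by
    refine ENNReal.toReal_le_of_le_ofReal (by positivity) ?_
    rw [hxz]
    exact hS.le
  have hfz : f b p z = 1 - τ := by
    have h1 : trAbsPow b p z + trAbsPow b p (X - z) = trAbsPow b p X := by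
      rw [htrz, hxz, htr]
      exact ENNReal.sum_add_tsum_compl S _
    have h2 := congrArg ENNReal.toReal h1
    rw [ENNReal.toReal_add hzc.2.ne hxzc.2.ne] at h2
    have h3 : (trAbsPow b p X).toReal = 1 := hfX
    rw [h3] at h2
    have h4 : f b p z + τ = 1 := h2
    linarith
  -- choice of M
  obtain ⟨M, hM0, hM⟩ : ∃ M : ℝ, 0 < M ∧ 4 * S.card * M ^ p ≤ ε / (9 * n) := by
    have h1 : 0 < ε / (9 * n) / (4 * S.card + 1) := by positivity
    refine ⟨(ε / (9 * n) / (4 * S.card + 1)) ^ (1 / p), Real.rpow_pos_of_pos h1 _, ?_⟩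
    rw [← Real.rpow_mul h1.le, one_div, inv_mul_cancel₀ hp0.ne', Real.rpow_one,
      mul_div_assoc', div_le_iff₀ (by positivity)]
    have : 0 < ε / (9 * n) := by positivity
    nlinarith [(Nat.cast_nonneg S.card : (0 : ℝ) ≤ S.card)]
  let eS := S.equivFin
  refine ⟨S.card, fun i => s.v (eS.symm i), fun i => s.y (eS.symm i), M, hM0,
    fun i => s.ov.1 _, fun i => s.oy.1 _, ?_⟩
  intro Y hY hfY hYe hYg
  have h1 : ∀ k ∈ S, ‖Y (s.v k)‖ ≤ M := by
    intro k hk
    have := hYe (eS ⟨k, hk⟩)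
    simpa using this
  have h2 : ∀ k ∈ S, ‖(star Y) (s.y k)‖ ≤ M := by
    intro k hk
    have := hYg (eS ⟨k, hk⟩)
    simpa using this
  obtain ⟨hD, hDf⟩ := cut b hp0 hp2 s.ov s.oy S hY hM0.le h1 h2
  set B : H →L[ℂ] H := (1 - prj s.y S) * Y * (1 - prj s.v S) with hB
  set η : ℝ := f b p (Y - B) with hη
  have hη0 : 0 ≤ η := f_nonneg b _
  have hη1 : η ≤ ε / (9 * n) := hDf.trans hM
  have hBc : IsSchatten b p B := by
    have := IsSchatten.sub' b hp0 hY hD
    simpa using this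
  have hfB : 1 - 1 / n - n * η ≤ f b p B := by
    have h3 := f_cont b hp0 hp2 hY (IsSchatten.neg' b hp0 hD) hn0
    rw [f_neg, hfY] at h3
    have h4 : Y + -(Y - B) = B := by abel
    rw [h4] at h3
    exact h3
  -- orthogonality
  obtain ⟨sB, -⟩ := exists_SV.{u, v} hBc.1
  have hBv : ∀ k ∈ S, B (s.v k) = 0 := by
    intro k hk
    change (1 - prj s.y S) (Y (s.v k - prj s.v S (s.v k))) = 0
    rw [prj_v s.ov S k hk, sub_self, map_zero, map_zero]
  have hBy : ∀ k ∈ S, ∀ x, ⟪s.y k, B x⟫_ℂ = 0 := by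
    intro k hk x
    change ⟪s.y k, (Y ((1 - prj s.v S) x)) - prj s.y S (Y ((1 - prj s.v S) x))⟫_ℂ = 0
    rw [inner_sub_right, inner_prj s.oy S k hk, sub_self]
  have hdis : trAbsPow b p (z + B) = trAbsPow b p z + trAbsPow b p B := by
    refine tr_disjoint (κ₁ := S) (κ₂ := sB.κ) (v₁ := fun k => s.v k) (y₁ := fun k => s.y k)
      (σ₁ := fun k => s.σ k) (v₂ := sB.v) (y₂ := sB.y) (σ₂ := sB.σ) (fun k => (s.pos k).le)
      (fun k => (sB.pos k).le) (s.ov.comp _ Subtype.val_injective)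
      (s.oy.comp _ Subtype.val_injective) sB.ov sB.oy (fun i j => ?_) (fun i j => ?_)
      (fun k => hzv k k.2) (fun x hx => hz0 x fun k hk => hx ⟨k, hk⟩) sB.ap
      (fun x hx => SV.zero sB hx) b hp0
    · have h5 := SV.inner_y sB j (s.v i)
      rw [hBv i i.2, inner_zero_right] at h5
      have h6 : ⟪sB.v j, s.v i⟫_ℂ = 0 := by
        rcases mul_eq_zero.1 h5.symm with h | h
        · exact absurd (Complex.ofReal_eq_zero.1 h) (sB.pos j).ne'
        · exact h
      rw [← inner_conj_symm, h6, map_zero]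
    · have h5 := hBy i i.2 (sB.v j)
      rw [sB.ap, inner_smul_right] at h5
      rcases mul_eq_zero.1 h5 with h | h
      · exact absurd (Complex.ofReal_eq_zero.1 h) (sB.pos j).ne'
      · exact h
  have hfzB : f b p (z + B) = f b p z + f b p B := by
    unfold f
    rw [hdis, ENNReal.toReal_add hzc.2.ne hBc.2.ne]
  have hW : IsSchatten b p ((X - z) + (Y - B)) := IsSchatten.add' b hp0 hxzc hD
  have hWf : f b p ((X - z) + (Y - B)) ≤ 2 * (τ + η) := by
    have h5 := mcc b hp0 hp2 hxzc hD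
    have h6 := f_nonneg (p := p) b ((X - z) - (Y - B))
    linarith
  have h7 := f_cont b hp0 hp2 (IsSchatten.add' b hp0 hzc hBc) hW hn0
  have h8 : z + B + ((X - z) + (Y - B)) = X + Y := by abel
  rw [h8, hfzB, hfz] at h7
  -- numbers
  have hL : 2 - τ - 1 / n - n * η ≤ (1 - τ) + f b p B := by linarith
  have hc1 : 0 ≤ 1 - 1 / (n : ℝ) := by linarith
  have h9 : (2 - τ - 1 / n - n * η) * (1 - 1 / n) ≤ ((1 - τ) + f b p B) * (1 - 1 / n) :=
    mul_le_mul_of_nonneg_right hL hc1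
  have h10 : (2 - τ - 1 / n - n * η) * (1 - 1 / n) ≥ 2 - τ - 1 / n - n * η - 2 / n := by
    have : (2 - τ - 1 / n - n * η) * (1 - 1 / n) =
        2 - τ - 1 / n - n * η - (2 - τ - 1 / n - n * η) / n := by ring
    rw [this]
    have h11 : (2 - τ - 1 / n - n * η) / n ≤ 2 / n := by
      refine div_le_div_of_nonneg_right ?_ hnr.le
      have : 0 ≤ 1 / (n : ℝ) := by positivity
      have : 0 ≤ n * η := by positivity
      linarith
    linarith
  have h12 : (1 - τ + f b p B) - (1 - τ + f b p B) / n = ((1 - τ) + f b p B) * (1 - 1 / n) := by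
    ring
  have h13 : n * f b p ((X - z) + (Y - B)) ≤ n * (2 * (τ + η)) :=
    mul_le_mul_of_nonneg_left hWf hnr.le
  have h14 : (1 + 2 * n) * τ ≤ ε / 3 := by
    have := mul_le_mul_of_nonneg_left hτle (by positivity : (0 : ℝ) ≤ 1 + 2 * n)
    refine this.trans (le_of_eq ?_)
    field_simp
  have h15 : 3 * n * η ≤ ε / 3 := by
    have := mul_le_mul_of_nonneg_left hη1 (by positivity : (0 : ℝ) ≤ 3 * n)
    refine this.trans (le_of_eq ?_)
    field_simp
    norm_num
  have h16 : 1 / (n : ℝ) + 2 / n = 3 / n := by ring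
  nlinarith

end Pool.Agent.N678.EM
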