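import Pool.Agent.N678.EM.Dich
import Pool.Agent.Helper526.Sch.Units

set_option autoImplicit false
set_option linter.unusedSectionVars false
open scoped InnerProductSpace ENNReal
open Pool.Agent.Helper526.Sch Pool.Agent.N678.CL Filter Topology

namespace Pool.Agent.N678.EM

universe u v w

variable {H : Type u} [NormedAddCommGroup H] [InnerProductSpace ℂ H] [CompleteSpace H]
  {ι : Type v} (b : HilbertBasis ι ℂ H) {p : ℝ}

theorem main_le_two (hp0 : 0 < p) (hp2 : p ≤ 2) {r : ℝ} {N : (ℕ →₀ ℂ) → ℝ} (hN : Like r N)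
    (L : (ℕ →₀ ℂ) →ₗ[ℂ] (H →L[ℂ] H)) (hS : ∀ a, IsSchatten b p (L a))
    (hf : ∀ a, f b p (L a) = N a ^ p) : r = 1 / 2 ∨ r = 1 / p := by
  by_cases hr : r = 1 / 2
  · exact Or.inl hr
  right
  have hL : ∀ a, ‖L a‖ ≤ N a := by
    intro a
    refine (opnorm_le b hp0 (hS a)).trans (le_of_eq ?_)
    rw [hf, ← Real.rpow_mul (hN.nonneg a), mul_one_div_cancel hp0.ne', Real.rpow_one]
  have h1 : f b p (L (Finsupp.single 0 1)) = 1 := by
    rw [hf, hN.one, Real.one_rpow]
  have hlow : 2 ≤ ((2 : ℝ) ^ r) ^ p := by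
    by_contra hlt
    push Not at hlt
    obtain ⟨m, e, g, M, hM, he, hg, hk⟩ := key b hp0 hp2 (hS (Finsupp.single 0 1)) h1
      (ε := (2 - ((2 : ℝ) ^ r) ^ p) / 2) (by linarith)
    by_cases hex : ∃ a : ℕ →₀ ℂ, a 0 = 0 ∧ N a = 1 ∧ QQ e g (L a) ≤ M ^ 2
    · obtain ⟨a, ha0, ha1, haQ⟩ := hex
      have h2 := hk (L a) (hS a) (by rw [hf, ha1, Real.one_rpow])
        (fun i => (QQ_small hM.le haQ i).1) (fun i => (QQ_small hM.le haQ i).2)
      rw [← map_add, hf, hN.split a ha0 ha1] at h2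
      linarith
    · push Not at hex
      exact hr (hilb hN L hL he hg hM hex)
  have hup : ((2 : ℝ) ^ r) ^ p ≤ 2 := by
    have h2 := mcc b hp0 hp2 (hS (Finsupp.single 0 1)) (hS (Finsupp.single 1 1))
    have hs1 : N (Finsupp.single 1 1) = 1 := hN.ones 0
    have hs2 : N (-Finsupp.single 1 1) = 1 := by
      have := hN.hom (-1) (Finsupp.single 1 1)
      simpa [hs1] using this
    rw [← map_add, ← map_sub, sub_eq_add_neg, hf, hf, hf, hf, hN.one, hs1,
      hN.split _ (by simp) hs1, hN.split _ (by simp) hs2, Real.one_rpow] at h2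
    linarith
  have heq : ((2 : ℝ) ^ r) ^ p = 2 := le_antisymm hup hlow
  rw [← Real.rpow_mul (by norm_num)] at heq
  have h3 : (2 : ℝ) ^ (r * p) = (2 : ℝ) ^ (1 : ℝ) := by rw [heq, Real.rpow_one]
  have h4 : r * p = 1 := (Real.strictMono_rpow_of_base_gt_one (by norm_num : (1 : ℝ) < 2)).injective h3
  field_simp
  exact h4

/-- diagonal operators -/
noncomputable def DD (c : HilbertBasis ℕ ℂ H) : (ℕ →₀ ℂ) →ₗ[ℂ] (H →L[ℂ] H) :=
  Finsupp.linearCombination ℂ (fun k => matUnit c k k)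

theorem DD_apply (c : HilbertBasis ℕ ℂ H) (a : ℕ →₀ ℂ) (i : ℕ) : DD c a (c i) = a i • c i := by
  classical
  have h : DD c a = ∑ k ∈ a.support, a k • matUnit c k k := by
    unfold DD
    rw [Finsupp.linearCombination_apply]
    rfl
  rw [h, ContinuousLinearMap.sum_apply]
  have h2 : ∀ k ∈ a.support, (a k • matUnit c k k) (c i) = if k = i then a i • c i else 0 := by
    intro k _
    change a k • (matUnit c k k (c i)) = _
    rw [matUnit_apply, inner_basis]
    split_ifs with hk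
    · subst hk
      simp
    · simp
  rw [Finset.sum_congr rfl h2, Finset.sum_ite_eq']
  split_ifs with hi
  · rfl
  · rw [Finsupp.notMem_support_iff.1 hi, zero_smul]

theorem star_DD (c : HilbertBasis ℕ ℂ H) (a : ℕ →₀ ℂ) (i : ℕ) :
    (star (DD c a)) (c i) = (starRingEnd ℂ) (a i) • c i := by
  apply c.repr.injective
  ext j
  rw [HilbertBasis.repr_apply_apply, HilbertBasis.repr_apply_apply, inner_star_right, DD_apply,
    inner_smul_left, inner_smul_right, inner_basis]
  split_ifs with h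
  · rw [h]
  · simp

theorem DD_eig (c : HilbertBasis ℕ ℂ H) (a : ℕ →₀ ℂ) (i : ℕ) :
    (star (DD c a) * DD c a) (c i) = ((‖a i‖ ^ 2 : ℝ) : ℂ) • c i := by
  change (star (DD c a)) (DD c a (c i)) = _
  rw [DD_apply, map_smul, star_DD, smul_smul]
  congr 1
  have := Complex.mul_conj' (a i)
  push_cast
  exact this

theorem DD_tr (c : HilbertBasis ℕ ℂ H) (a : ℕ →₀ ℂ) {q : ℝ} (hq : 0 < q) :
    trAbsPow c q (DD c a) = ENNReal.ofReal (∑ k ∈ a.support, ‖a k‖ ^ q) := by
  rw [trAbsPow_eq c c (DD_eig c a) hq]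
  have h1 : ∀ k, ENNReal.ofReal ((‖a k‖ ^ 2) ^ (q / 2)) = ENNReal.ofReal (‖a k‖ ^ q) := by
    intro k
    rw [← Real.rpow_natCast, ← Real.rpow_mul (norm_nonneg _)]
    congr 2
    push_cast
    ring
  simp only [h1]
  rw [tsum_eq_sum (s := a.support), ENNReal.ofReal_sum_of_nonneg fun _ _ => by positivity]
  intro k hk
  rw [Finsupp.notMem_support_iff.1 hk, norm_zero, Real.zero_rpow hq.ne', ENNReal.ofReal_zero]

theorem DD_compact (c : HilbertBasis ℕ ℂ H) (a : ℕ →₀ ℂ) : IsCompactOperator (DD c a) := by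
  classical
  have h : DD c a = ∑ k ∈ a.support, a k • matUnit c k k := by
    unfold DD
    rw [Finsupp.linearCombination_apply]
    rfl
  rw [h]
  have : ∀ s : Finset ℕ, IsCompactOperator (∑ k ∈ s, a k • matUnit c k k : H →L[ℂ] H) := by
    intro s
    induction s using Finset.induction_on with
    | empty => simpa using (isCompactOperator_zero : IsCompactOperator (0 : H → H))
    | insert j s hj ih =>
      rw [Finset.sum_insert hj]
      exact ((matUnit_compact c j j).smul (a j)).add ih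
  exact this _

/-- the norm of `ℓ_q` -/
noncomputable def nq (q : ℝ) (a : ℕ →₀ ℂ) : ℝ := (∑ k ∈ a.support, ‖a k‖ ^ q) ^ (1 / q)

theorem nq_sum {q : ℝ} (hq : 0 < q) (a : ℕ →₀ ℂ) (s : Finset ℕ) (h : a.support ⊆ s) :
    ∑ k ∈ a.support, ‖a k‖ ^ q = ∑ k ∈ s, ‖a k‖ ^ q :=
  Finset.sum_subset h fun k _ hk => by
    rw [Finsupp.notMem_support_iff.1 hk, norm_zero, Real.zero_rpow hq.ne']

theorem nq_pow {q : ℝ} (hq : 0 < q) (a : ℕ →₀ ℂ) : nq q a ^ q = ∑ k ∈ a.support, ‖a k‖ ^ q := by
  unfold nq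
  rw [← Real.rpow_mul (Finset.sum_nonneg fun _ _ => by positivity), one_div,
    inv_mul_cancel₀ hq.ne', Real.rpow_one]

theorem sgn_apply (n : ℕ) (ε : ℕ → ℝ) (j : ℕ) :
    (∑ k ∈ Finset.range n, (ε k : ℂ) • (Finsupp.single (k + 1) 1 : ℕ →₀ ℂ)) j =
      if 0 < j ∧ j ≤ n then (ε (j - 1) : ℂ) else 0 := by
  classical
  rw [Finsupp.finset_sum_apply]
  have h1 : ∀ k ∈ Finset.range n, ((ε k : ℂ) • (Finsupp.single (k + 1) 1 : ℕ →₀ ℂ)) j =
      if k + 1 = j then (ε k : ℂ) else 0 := by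
    intro k _
    rw [Finsupp.smul_apply, Finsupp.single_apply]
    split_ifs <;> simp
  rw [Finset.sum_congr rfl h1]
  split_ifs with h
  · rw [Finset.sum_eq_single (j - 1)]
    · rw [if_pos (by omega)]
    · intro k _ hk
      rw [if_neg (by omega)]
    · intro h2
      exact absurd (Finset.mem_range.2 (by omega)) h2
  · refine Finset.sum_eq_zero fun k hk => ?_
    have := Finset.mem_range.1 hk
    rw [if_neg (by omega)]

theorem like_q {q : ℝ} (hq : 0 < q) : Like (1 / q) (nq q) where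
  nonneg a := Real.rpow_nonneg (Finset.sum_nonneg fun _ _ => by positivity) _
  pos a ha := by
    refine Real.rpow_pos_of_pos (Finset.sum_pos (fun k hk => ?_) (Finsupp.support_nonempty_iff.2 ha)) _
    exact Real.rpow_pos_of_pos (norm_pos_iff.2 (Finsupp.mem_support_iff.1 hk)) _
  hom t a := by
    unfold nq
    have h1 : ∑ k ∈ ((t : ℂ) • a).support, ‖((t : ℂ) • a) k‖ ^ q =
        |t| ^ q * ∑ k ∈ a.support, ‖a k‖ ^ q := by
      rw [nq_sum hq _ a.support Finsupp.support_smul, Finset.mul_sum]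
      refine Finset.sum_congr rfl fun k _ => ?_
      rw [Finsupp.smul_apply, norm_smul, Complex.norm_real, Real.norm_eq_abs,
        Real.mul_rpow (abs_nonneg _) (norm_nonneg _)]
    rw [h1, Real.mul_rpow (Real.rpow_nonneg (abs_nonneg _) _)
      (Finset.sum_nonneg fun _ _ => by positivity), ← Real.rpow_mul (abs_nonneg _),
      mul_one_div_cancel hq.ne', Real.rpow_one]
  one := by
    unfold nq
    rw [Finsupp.support_single_ne_zero _ one_ne_zero]
    simp
  ones k := by
    unfold nq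
    rw [Finsupp.support_single_ne_zero _ one_ne_zero]
    simp
  split a ha0 ha1 := by
    classical
    have h1 : ∑ k ∈ a.support, ‖a k‖ ^ q = 1 := by
      rw [← nq_pow hq, ha1, Real.one_rpow]
    unfold nq
    have h0 : 0 ∉ a.support := by simpa using ha0
    have h2 : ∑ k ∈ (Finsupp.single 0 1 + a : ℕ →₀ ℂ).support,
        ‖(Finsupp.single 0 1 + a : ℕ →₀ ℂ) k‖ ^ q = 2 := by
      rw [nq_sum hq _ (insert 0 a.support) ?_, Finset.sum_insert h0]
      · have h3 : ∑ k ∈ a.support, ‖(Finsupp.single 0 1 + a : ℕ →₀ ℂ) k‖ ^ q = 1 := by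
          rw [← h1]
          refine Finset.sum_congr rfl fun k hk => ?_
          have : k ≠ 0 := fun h => h0 (h ▸ hk)
          rw [Finsupp.add_apply, Finsupp.single_apply, if_neg (Ne.symm this), zero_add]
        rw [h3, Finsupp.add_apply, ha0]
        simp
        norm_num
      · refine Finsupp.support_add.trans ?_
        rw [Finsupp.support_single_ne_zero _ one_ne_zero]
        intro k hk
        simpa using hk
    rw [h2]
  signs n ε hn hε := by
    classical
    unfold nq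
    have h2 : ∑ k ∈ (∑ k ∈ Finset.range n, (ε k : ℂ) • (Finsupp.single (k + 1) 1 : ℕ →₀ ℂ)).support,
        ‖(∑ k ∈ Finset.range n, (ε k : ℂ) • (Finsupp.single (k + 1) 1 : ℕ →₀ ℂ)) k‖ ^ q = n := by
      rw [nq_sum hq _ (Finset.Icc 1 n) ?_]
      · have h3 : ∀ j ∈ Finset.Icc 1 n,
            ‖(∑ k ∈ Finset.range n, (ε k : ℂ) • (Finsupp.single (k + 1) 1 : ℕ →₀ ℂ)) j‖ ^ q = 1 := by
          intro j hj
          have := Finset.mem_Icc.1 hj
          rw [sgn_apply, if_pos (by omega), Complex.norm_real]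
          rcases hε (j - 1) with h | h <;> rw [h] <;> simp
        rw [Finset.sum_congr rfl h3]
        simp
      · intro j hj
        rw [Finsupp.mem_support_iff, sgn_apply] at hj
        rw [Finset.mem_Icc]
        by_contra hne
        exact hj (if_neg (by omega))
    rw [h2]

end Pool.Agent.N678.EM
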