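import Pool.Agent.Helper526.Sch.Classes

set_option autoImplicit false
set_option linter.unusedSectionVars false
open scoped InnerProductSpace ENNReal
open Pool.Agent.Helper526.Sch

namespace Pool.Agent.N678.EM

universe u v w

variable {H : Type u} [NormedAddCommGroup H] [InnerProductSpace ℂ H] [CompleteSpace H]

/-- extension of an orthonormal family to a Hilbert basis -/
theorem ext_basis {κ : Type w} {v : κ → H} (hv : Orthonormal ℂ v) :
    ∃ (w : Set H) (B : HilbertBasis w ℂ H) (g : κ → w), Function.Injective g ∧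
      (∀ k, B (g k) = v k) ∧ ∀ e : w, (∀ k, e ≠ g k) → ∀ k, ⟪v k, B e⟫_ℂ = 0 := by
  obtain ⟨w, B, hsub, hB⟩ := hv.toSubtypeRange.exists_hilbertBasis_extension
  refine ⟨w, B, fun k => ⟨v k, hsub ⟨k, rfl⟩⟩, ?_, ?_, ?_⟩
  · intro i j hij
    exact hv.linearIndependent.injective (by simpa using congrArg Subtype.val hij)
  · intro k
    rw [hB]
  · intro e he k
    have h1 : B ⟨v k, hsub ⟨k, rfl⟩⟩ = v k := by rw [hB]
    rw [← h1]
    exact B.orthonormal.2 (fun h => he k h.symm)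

/-- trace of `|X|^p` from a singular value decomposition -/
theorem tr_of_system {κ : Type w} {X : H →L[ℂ] H} {v y : κ → H} {σ : κ → ℝ}
    (hσ : ∀ k, 0 ≤ σ k) (hv : Orthonormal ℂ v) (hy : Orthonormal ℂ y)
    (hXv : ∀ k, X (v k) = (σ k : ℂ) • y k)
    (h0 : ∀ x, (∀ k, ⟪v k, x⟫_ℂ = 0) → X x = 0) {ι : Type v} (b : HilbertBasis ι ℂ H)
    {p : ℝ} (hp : 0 < p) : trAbsPow b p X = ∑' k, ENNReal.ofReal (σ k ^ p) := by
  classical
  obtain ⟨s, B, g, hg, hBg, hB0⟩ := ext_basis hv
  have hstar : ∀ k, (star X) (y k) = (σ k : ℂ) • v k := by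
    intro k
    apply B.repr.injective
    ext e
    rw [HilbertBasis.repr_apply_apply, HilbertBasis.repr_apply_apply, inner_star_right,
      inner_smul_right]
    by_cases he : ∃ j, e = g j
    · obtain ⟨j, rfl⟩ := he
      rw [hBg, hXv, inner_smul_left, Complex.conj_ofReal, orthonormal_iff_ite.1 hy j k,
        orthonormal_iff_ite.1 hv j k]
      split_ifs with h
      · rw [h]
      · simp
    · push Not at he
      rw [h0 _ (hB0 e he), inner_zero_left]
      have := hB0 e he k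
      rw [← inner_conj_symm, this]
      simp
  have hn : ∀ k, ‖X (B (g k))‖ = σ k := by
    intro k
    rw [hBg, hXv, norm_smul, hy.1 k, mul_one, Complex.norm_real, Real.norm_of_nonneg (hσ k)]
  have heig : ∀ e, (star X * X) (B e) = ((‖X (B e)‖ ^ 2 : ℝ) : ℂ) • B e := by
    intro e
    change (star X) (X (B e)) = _
    by_cases he : ∃ j, e = g j
    · obtain ⟨j, rfl⟩ := he
      rw [hn, hBg, hXv, map_smul, hstar, smul_smul]
      congr 1
      push_cast
      ring
    · push Not at he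
      rw [h0 _ (hB0 e he)]
      simp
  rw [trAbsPow_eq b B heig hp]
  have hsupp : Function.support (fun e => ENNReal.ofReal ((‖X (B e)‖ ^ 2) ^ (p / 2))) ⊆
      Set.range g := by
    intro e he
    by_contra hne
    apply he
    have : ∀ k, e ≠ g k := fun k h => hne ⟨k, h.symm⟩
    dsimp only
    rw [h0 _ (hB0 e this), norm_zero, zero_pow two_ne_zero, Real.zero_rpow (by positivity),
      ENNReal.ofReal_zero]
  rw [← hg.tsum_eq hsupp]
  refine tsum_congr fun k => ?_
  rw [hn]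
  congr 1
  rw [← Real.rpow_natCast, ← Real.rpow_mul (hσ k)]
  congr 1
  push_cast
  ring

/-- upper bound for `p ≤ 2` -/
theorem tr_le_of_system {κ : Type w} {W : H →L[ℂ] H} (hW : IsCompactOperator (star W * W))
    {v : κ → H} (hv : Orthonormal ℂ v)
    (h0 : ∀ x, (∀ k, ⟪v k, x⟫_ℂ = 0) → W x = 0) {ι : Type v} (b : HilbertBasis ι ℂ H)
    {p : ℝ} (hp : 0 < p) (hp2 : p ≤ 2) :
    trAbsPow b p W ≤ ∑' k, ENNReal.ofReal (‖W (v k)‖ ^ p) := by
  classical
  obtain ⟨s, B, g, hg, hBg, hB0⟩ := ext_basis hv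
  refine (le_sum_norm b B hW hp hp2).trans (le_of_eq ?_)
  have hsupp : Function.support (fun e => ENNReal.ofReal (‖W (B e)‖ ^ p)) ⊆ Set.range g := by
    intro e he
    by_contra hne
    apply he
    have : ∀ k, e ≠ g k := fun k h => hne ⟨k, h.symm⟩
    dsimp only
    rw [h0 _ (hB0 e this), norm_zero, Real.zero_rpow hp.ne', ENNReal.ofReal_zero]
  rw [← hg.tsum_eq hsupp]
  refine tsum_congr fun k => ?_
  rw [hBg]

theorem seq_ineq {a : ℕ → ℝ} {c : ℝ} (ha : ∀ k, 0 ≤ a k)
    (h : ∀ k, a (k + 2) + a k ≤ 2 * a (k + 1) + 2 * c) (hc : 0 ≤ c) {n : ℕ} (hn : 0 < n) :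
    a 0 - a 0 / n - n * c ≤ a 1 := by
  have h1 : ∀ k : ℕ, a (k + 1) - a k ≤ a 1 - a 0 + 2 * k * c := by
    intro k
    induction k with
    | zero => simp
    | succ k ih =>
      have := h k
      push_cast
      linarith
  have h2 : ∀ m : ℕ, a m ≤ a 0 + m * (a 1 - a 0) + m ^ 2 * c := by
    intro m
    induction m with
    | zero => simp
    | succ m ih =>
      have := h1 m
      push_cast
      nlinarith
  have h3 := (ha n).trans (h2 n)
  have hn' : (0 : ℝ) < n := by exact_mod_cast hn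
  have h4 : 0 ≤ a 0 / n + (a 1 - a 0) + n * c := by
    have : a 0 / n + (a 1 - a 0) + n * c = (a 0 + n * (a 1 - a 0) + n ^ 2 * c) / n := by
      field_simp
    rw [this]
    positivity
  linarith

section

variable {ι : Type v} (b : HilbertBasis ι ℂ H) {p : ℝ}

/-- real version -/
noncomputable def f (p : ℝ) (X : H →L[ℂ] H) : ℝ := (trAbsPow b p X).toReal

theorem f_nonneg (X : H →L[ℂ] H) : 0 ≤ f b p X := ENNReal.toReal_nonneg

theorem mcc (hp0 : 0 < p) (hp2 : p ≤ 2) {X Y : H →L[ℂ] H} (hX : IsSchatten b p X)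
    (hY : IsSchatten b p Y) : f b p (X + Y) + f b p (X - Y) ≤ 2 * (f b p X + f b p Y) := by
  have h := mccarthy_le b (CptPair.of_compact hX.1 hY.1) hp0 hp2
  have hfin : 2 * (trAbsPow b p X + trAbsPow b p Y) ≠ ∞ :=
    ENNReal.mul_ne_top (by simp) (ENNReal.add_ne_top.2 ⟨hX.2.ne, hY.2.ne⟩)
  have h2 := ENNReal.toReal_mono hfin h
  have hadd : trAbsPow b p (X + Y) + trAbsPow b p (X - Y) ≠ ∞ := ne_top_of_le_ne_top hfin h
  rw [ENNReal.toReal_add (ENNReal.add_ne_top.1 hadd).1 (ENNReal.add_ne_top.1 hadd).2,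
    ENNReal.toReal_mul, ENNReal.toReal_add hX.2.ne hY.2.ne] at h2
  simpa [f] using h2

theorem IsSchatten.add' {p : ℝ} (hp : 0 < p) {X Y : H →L[ℂ] H} (hX : IsSchatten b p X)
    (hY : IsSchatten b p Y) : IsSchatten b p (X + Y) := schatten_add_mem b hp hX hY

theorem IsSchatten.smul' {p : ℝ} (hp : 0 < p) {X : H →L[ℂ] H} (c : ℂ) (hX : IsSchatten b p X) :
    IsSchatten b p (c • X) := schatten_smul_mem b hp c hX

theorem IsSchatten.neg' {p : ℝ} (hp : 0 < p) {X : H →L[ℂ] H} (hX : IsSchatten b p X) :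
    IsSchatten b p (-X) := by
  have := schatten_smul_mem b hp (-1 : ℂ) hX
  simpa using this

theorem IsSchatten.sub' {p : ℝ} (hp : 0 < p) {X Y : H →L[ℂ] H} (hX : IsSchatten b p X)
    (hY : IsSchatten b p Y) : IsSchatten b p (X - Y) := by
  rw [sub_eq_add_neg]
  exact IsSchatten.add' b hp hX (IsSchatten.neg' b hp hY)

/-- quantitative continuity from the McCarthy inequality -/
theorem f_cont (hp0 : 0 < p) (hp2 : p ≤ 2) {X Y : H →L[ℂ] H} (hX : IsSchatten b p X)
    (hY : IsSchatten b p Y) {n : ℕ} (hn : 0 < n) :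
    f b p X - f b p X / n - n * f b p Y ≤ f b p (X + Y) := by
  have hk : ∀ k : ℕ, IsSchatten b p (X + (k : ℂ) • Y) := fun k =>
    IsSchatten.add' b hp0 hX (IsSchatten.smul' b hp0 _ hY)
  have h := seq_ineq (a := fun k : ℕ => f b p (X + (k : ℂ) • Y)) (c := f b p Y)
    (fun k => f_nonneg b _) (fun k => by
      have h1 := mcc b hp0 hp2 (hk (k + 1)) hY
      have e1 : X + ((k + 1 : ℕ) : ℂ) • Y + Y = X + ((k + 2 : ℕ) : ℂ) • Y := by
        push_cast
        module
      have e2 : X + ((k + 1 : ℕ) : ℂ) • Y - Y = X + (k : ℂ) • Y := by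
        push_cast
        module
      rw [e1, e2] at h1
      linarith) (f_nonneg b _) hn
  simpa using h

end

end Pool.Agent.N678.EM
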